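import Pool.Agent.Helper865.Astro.Defs

set_option autoImplicit false

open MeasureTheory Set Filter Topology
open scoped NNReal ENNReal

namespace Pool.Agent.Helper865.Astro



lemma act_mul (g h : O3) (x : E3) : act (g * h) x = act g (act h x) := by
  simp only [act, Submonoid.coe_mul]
  rw [Matrix.toLpLin_mul_same]
  rfl

lemma act_one (x : E3) : act 1 x = x := by
  simp only [act, OneMemClass.coe_one]
  rw [Matrix.toLpLin_one]
  rfl

lemma inner_act (g : O3) (x y : E3) : inner ℝ (act g x) (act g y) = inner ℝ x y := by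
  have hg : star (g : Matrix (Fin 3) (Fin 3) ℝ) * (g : Matrix (Fin 3) (Fin 3) ℝ) = 1 :=
    (Matrix.mem_orthogonalGroup_iff' (Fin 3) ℝ).1 g.2
  simp only [act]
  rw [← LinearMap.adjoint_inner_right, ← Matrix.toEuclideanLin_conjTranspose_eq_adjoint]
  have h2 : Matrix.toEuclideanLin (g : Matrix (Fin 3) (Fin 3) ℝ).conjTranspose
      (Matrix.toEuclideanLin (g : Matrix (Fin 3) (Fin 3) ℝ) y) = y := by
    have h3 := Matrix.toLpLin_mul_same 2 (g : Matrix (Fin 3) (Fin 3) ℝ).conjTranspose
      (g : Matrix (Fin 3) (Fin 3) ℝ)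
    have h4 : (g : Matrix (Fin 3) (Fin 3) ℝ).conjTranspose * (g : Matrix (Fin 3) (Fin 3) ℝ) = 1 :=
      hg
    rw [h4, Matrix.toLpLin_one] at h3
    have h5 := LinearMap.congr_fun h3 y
    exact h5.symm
  rw [h2]

lemma norm_act (g : O3) (x : E3) : ‖act g x‖ = ‖x‖ := by
  have h := inner_act g x x
  rw [real_inner_self_eq_norm_sq, real_inner_self_eq_norm_sq] at h
  exact (sq_eq_sq₀ (norm_nonneg _) (norm_nonneg _)).1 h

lemma angle_act (g : O3) (x y : E3) :
    InnerProductGeometry.angle (act g x) (act g y) = InnerProductGeometry.angle x y := by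
  simp only [InnerProductGeometry.angle, inner_act, norm_act]

lemma continuous_act : Continuous fun p : O3 × E3 => act p.1 p.2 := by
  have h1 : Continuous fun p : O3 × E3 =>
      ((p.1 : Matrix (Fin 3) (Fin 3) ℝ)).mulVec (WithLp.ofLp p.2) := by
    apply Continuous.matrix_mulVec
    · exact continuous_subtype_val.comp continuous_fst
    · exact (PiLp.continuous_ofLp 2 _).comp continuous_snd
  exact (PiLp.continuous_toLp 2 _).comp h1

lemma exists_act (x z : E3) (h : ‖x‖ = ‖z‖) : ∃ g : O3, act g x = z := by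
  set L : E3 ≃ₗᵢ[ℝ] E3 := Submodule.reflection (Submodule.span ℝ {x - z})ᗮ with hL
  have hLx : L x = z := Submodule.reflection_sub h
  set M : Matrix (Fin 3) (Fin 3) ℝ :=
    Matrix.toEuclideanLin.symm (L.toLinearEquiv : E3 →ₗ[ℝ] E3) with hM
  have hML : Matrix.toEuclideanLin M = (L.toLinearEquiv : E3 →ₗ[ℝ] E3) := by
    rw [hM, LinearEquiv.apply_symm_apply]
  have hmem : M ∈ Matrix.orthogonalGroup (Fin 3) ℝ := by
    rw [Matrix.mem_orthogonalGroup_iff']
    apply Matrix.toEuclideanLin.injective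
    have h3 := Matrix.toLpLin_mul_same 2 M.conjTranspose M
    show Matrix.toEuclideanLin (M.conjTranspose * M) = _
    rw [Matrix.toLpLin_one]
    rw [h3]
    have h4 := Matrix.toEuclideanLin_conjTranspose_eq_adjoint M
    apply LinearMap.ext
    intro u
    apply ext_inner_right ℝ
    intro v
    show inner ℝ (Matrix.toEuclideanLin M.conjTranspose (Matrix.toEuclideanLin M u)) v = inner ℝ u v
    rw [h4, LinearMap.adjoint_inner_left, hML]
    exact L.inner_map_map u v
  refine ⟨⟨M, hmem⟩, ?_⟩
  show Matrix.toEuclideanLin M x = z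
  rw [hML]
  exact hLx

lemma mp_act (g : O3) : MeasurePreserving (act g) (volume : Measure E3) volume := by
  let T : E3 →ₗᵢ[ℝ] E3 :=
    ⟨Matrix.toEuclideanLin (g : Matrix (Fin 3) (Fin 3) ℝ), fun x => norm_act g x⟩
  exact (T.toLinearIsometryEquiv rfl).measurePreserving

end Pool.Agent.Helper865.Astro
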