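import Pool.Agent.Helper865.Astro.Defs

set_option autoImplicit false

open MeasureTheory Set Filter Topology
open scoped NNReal ENNReal

namespace Pool.Agent.Helper865.Astro


instance compactO3 : CompactSpace O3 := by
  have hK : IsCompact {M : Matrix (Fin 3) (Fin 3) ℝ | ∀ i j, M i j ∈ Icc (-1:ℝ) 1} := by
    have h := isCompact_univ_pi (X := fun _ : Fin 3 => Fin 3 → ℝ)
      (s := fun _ => Set.pi univ fun _ => Icc (-1:ℝ) 1)
      (fun _ => isCompact_univ_pi fun _ => isCompact_Icc)
    have e : {M : Fin 3 → Fin 3 → ℝ | ∀ i j, M i j ∈ Icc (-1:ℝ) 1} =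
        Set.pi univ fun _ => Set.pi univ fun _ => Icc (-1:ℝ) 1 := by
      ext M; simp only [Set.mem_pi, Set.mem_univ, true_imp_iff]; rfl
    rw [← e] at h
    exact h
  have hc : IsCompact ((Matrix.orthogonalGroup (Fin 3) ℝ : Submonoid _) :
      Set (Matrix (Fin 3) (Fin 3) ℝ)) := by
    refine hK.of_isClosed_subset ?_ ?_
    · have : ((Matrix.orthogonalGroup (Fin 3) ℝ : Submonoid _) :
          Set (Matrix (Fin 3) (Fin 3) ℝ)) = {M | M * star M = 1} := by
        ext M; exact Matrix.mem_orthogonalGroup_iff (Fin 3) ℝ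
      rw [this]
      exact isClosed_eq (continuous_id.matrix_mul continuous_star) continuous_const
    · intro M hM i j
      have := entry_norm_bound_of_unitary (𝕜 := ℝ) hM i j
      rw [Real.norm_eq_abs] at this
      exact abs_le.1 this
  exact isCompact_iff_compactSpace.1 hc

/-- the normalised Haar measure of O(3) -/
noncomputable def haarO3 : Measure O3 := Measure.haarMeasure ⊤

instance probO3 : IsProbabilityMeasure haarO3 := by
  refine ⟨?_⟩
  have := Measure.haarMeasure_self (G := O3) (K₀ := ⊤)
  simpa [haarO3] using this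

instance invO3 : haarO3.IsMulLeftInvariant := by
  unfold haarO3
  infer_instance

end Pool.Agent.Helper865.Astro
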