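import Pool.Agent.Helper865.Astro.Defs

set_option autoImplicit false

open MeasureTheory Set Filter Topology
open scoped NNReal ENNReal

namespace Pool.Agent.Helper865.Astro


lemma cone_vol_disc (r : ℝ) (hr : 0 ≤ r) :
    volume {q : Fin 2 → ℝ | q 0 ^ 2 + q 1 ^ 2 ≤ r ^ 2} = ENNReal.ofReal (Real.pi * r ^ 2) := by
  have hm : MeasurableSet {q : Fin 2 → ℝ | q 0 ^ 2 + q 1 ^ 2 ≤ r ^ 2} := by
    have h1 : Continuous (fun q : Fin 2 → ℝ => q 0 ^ 2 + q 1 ^ 2) := by fun_prop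
    exact (isClosed_le h1 continuous_const).measurableSet
  rw [← (PiLp.volume_preserving_ofLp (Fin 2)).measure_preimage hm.nullMeasurableSet]
  have h2 : (WithLp.ofLp ⁻¹' {q : Fin 2 → ℝ | q 0 ^ 2 + q 1 ^ 2 ≤ r ^ 2} :
      Set (EuclideanSpace ℝ (Fin 2))) = Metric.closedBall 0 r := by
    ext x
    rw [mem_closedBall_zero_iff, EuclideanSpace.norm_eq, Real.sqrt_le_left hr, Fin.sum_univ_two]
    simp
  rw [h2, EuclideanSpace.volume_closedBall_fin_two, ← ENNReal.ofReal_pow hr,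
    ← ENNReal.ofReal_mul (by positivity)]
  congr 1
  ring

lemma cone_vol (T : ℝ) (hT : 0 ≤ T) :
    volume {y : E3 | 0 ≤ y 2 ∧ y 2 ≤ 1 ∧ y 0 ^ 2 + y 1 ^ 2 ≤ T ^ 2 * y 2 ^ 2} ≤
      ENNReal.ofReal (Real.pi * T ^ 2 / 3) := by
  set S3 : Set (Fin 3 → ℝ) := {y | 0 ≤ y 2 ∧ y 2 ≤ 1 ∧ y 0 ^ 2 + y 1 ^ 2 ≤ T ^ 2 * y 2 ^ 2}
    with hS3
  set P : Set (ℝ × (Fin 2 → ℝ)) :=
    {p | 0 ≤ p.1 ∧ p.1 ≤ 1 ∧ p.2 0 ^ 2 + p.2 1 ^ 2 ≤ T ^ 2 * p.1 ^ 2} with hP
  have hS3m : MeasurableSet S3 := by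
    have h1 : Continuous (fun y : Fin 3 → ℝ => y 2) := by fun_prop
    have h2 : Continuous (fun y : Fin 3 → ℝ => y 0 ^ 2 + y 1 ^ 2) := by fun_prop
    have h3 : Continuous (fun y : Fin 3 → ℝ => T ^ 2 * y 2 ^ 2) := by fun_prop
    exact (isClosed_le continuous_const h1).measurableSet.inter
      ((isClosed_le h1 continuous_const).measurableSet.inter (isClosed_le h2 h3).measurableSet)
  have hPm : MeasurableSet P := by
    have h1 : Continuous (fun y : ℝ × (Fin 2 → ℝ) => y.1) := by fun_prop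
    have h2 : Continuous (fun y : ℝ × (Fin 2 → ℝ) => y.2 0 ^ 2 + y.2 1 ^ 2) := by fun_prop
    have h3 : Continuous (fun y : ℝ × (Fin 2 → ℝ) => T ^ 2 * y.1 ^ 2) := by fun_prop
    exact (isClosed_le continuous_const h1).measurableSet.inter
      ((isClosed_le h1 continuous_const).measurableSet.inter (isClosed_le h2 h3).measurableSet)
  have e1 : volume {y : E3 | 0 ≤ y 2 ∧ y 2 ≤ 1 ∧ y 0 ^ 2 + y 1 ^ 2 ≤ T ^ 2 * y 2 ^ 2} =
      volume S3 :=
    (PiLp.volume_preserving_ofLp (Fin 3)).measure_preimage hS3m.nullMeasurableSet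
  have e2 : volume S3 = volume P := by
    rw [← (volume_preserving_piFinSuccAbove (fun _ : Fin 3 => ℝ) 2).measure_preimage
      hPm.nullMeasurableSet]
    rfl
  rw [e1, e2, Measure.volume_eq_prod, Measure.prod_apply hPm]
  have hle : ∀ h : ℝ, volume (Prod.mk h ⁻¹' P) ≤
      (Set.Icc (0 : ℝ) 1).indicator (fun h => ENNReal.ofReal (Real.pi * T ^ 2 * h ^ 2)) h := by
    intro h
    by_cases hh : h ∈ Set.Icc (0 : ℝ) 1
    · rw [Set.indicator_of_mem hh]
      have h3 : Prod.mk h ⁻¹' P ⊆ {q : Fin 2 → ℝ | q 0 ^ 2 + q 1 ^ 2 ≤ (T * h) ^ 2} := by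
        rintro q ⟨_, _, h4⟩
        show q 0 ^ 2 + q 1 ^ 2 ≤ (T * h) ^ 2
        rw [mul_pow]
        exact h4
      refine (measure_mono h3).trans ?_
      rw [cone_vol_disc _ (mul_nonneg hT hh.1)]
      refine le_of_eq ?_
      congr 1
      ring
    · have h3 : Prod.mk h ⁻¹' P = ∅ := by
        rw [Set.eq_empty_iff_forall_notMem]
        rintro q ⟨h4, h5, _⟩
        exact hh ⟨h4, h5⟩
      rw [h3, measure_empty]
      exact bot_le
  refine (lintegral_mono hle).trans ?_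
  rw [lintegral_indicator measurableSet_Icc]
  have hint : IntegrableOn (fun h : ℝ => Real.pi * T ^ 2 * h ^ 2) (Set.Icc 0 1) := by
    have : Continuous (fun h : ℝ => Real.pi * T ^ 2 * h ^ 2) := by fun_prop
    exact this.integrableOn_Icc
  rw [← ofReal_integral_eq_lintegral_ofReal hint
    (Filter.Eventually.of_forall fun h => by positivity)]
  apply ENNReal.ofReal_le_ofReal
  rw [integral_Icc_eq_integral_Ioc, ← intervalIntegral.integral_of_le zero_le_one,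
    intervalIntegral.integral_const_mul, integral_pow]
  norm_num
  linarith

end Pool.Agent.Helper865.Astro
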