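import Pool.Agent.Helper865.Astro.Defs

set_option autoImplicit false

open MeasureTheory Set Filter Topology
open scoped NNReal ENNReal

namespace Pool.Agent.Helper865.Astro


lemma sector_vol
    (hangle : ∀ (g : O3) (x y : E3),
      InnerProductGeometry.angle (act g x) (act g y) = InnerProductGeometry.angle x y)
    (hnorm : ∀ (g : O3) (x : E3), ‖act g x‖ = ‖x‖)
    (htrans : ∀ x z : E3, ‖x‖ = ‖z‖ → ∃ g : O3, act g x = z)
    (hmp : ∀ g : O3, MeasurePreserving (act g) (volume : Measure E3) volume)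
    (hcone : ∀ T : ℝ, 0 ≤ T →
      volume {y : E3 | 0 ≤ y 2 ∧ y 2 ≤ 1 ∧ y 0 ^ 2 + y 1 ^ 2 ≤ T ^ 2 * y 2 ^ 2} ≤
      ENNReal.ofReal (Real.pi * T ^ 2 / 3))
    {x : E3} (hx : x ≠ 0) {α : ℝ} (h0 : 0 < α) (h1 : α < Real.pi / 2) :
    volume {z : E3 | ‖z‖ < 1 ∧ InnerProductGeometry.angle x z ≤ α} ≤
      ENNReal.ofReal (Real.pi * Real.tan α ^ 2 / 3) := by
  have hxpos : 0 < ‖x‖ := norm_pos_iff.mpr hx
  set e2 : E3 := EuclideanSpace.single 2 1 with he2
  have he2n : ‖e2‖ = 1 := by simp [he2]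
  obtain ⟨g, hg⟩ := htrans x (‖x‖ • e2) (by rw [norm_smul, he2n, norm_norm, mul_one])
  have hcos : 0 < Real.cos α := Real.cos_pos_of_mem_Ioo ⟨by linarith [Real.pi_pos], h1⟩
  have hT : 0 ≤ Real.tan α := (Real.tan_pos_of_pos_of_lt_pi_div_two h0 h1).le
  set C : Set E3 := {y : E3 | 0 ≤ y 2 ∧ y 2 ≤ 1 ∧ y 0 ^ 2 + y 1 ^ 2 ≤ Real.tan α ^ 2 * y 2 ^ 2}
    with hC
  have hCm : MeasurableSet C := by
    have c : ∀ i : Fin 3, Continuous fun y : E3 => y i := fun i => by fun_prop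
    apply IsClosed.measurableSet
    have e : C = {y : E3 | 0 ≤ y 2} ∩ ({y : E3 | y 2 ≤ 1} ∩
      {y : E3 | y 0 ^ 2 + y 1 ^ 2 ≤ Real.tan α ^ 2 * y 2 ^ 2}) := by
      ext y; simp [hC]
    rw [e]
    exact (isClosed_le continuous_const (c 2)).inter ((isClosed_le (c 2) continuous_const).inter
      (isClosed_le (((c 0).pow 2).add ((c 1).pow 2)) (continuous_const.mul ((c 2).pow 2))))
  have hsub : {z : E3 | ‖z‖ < 1 ∧ InnerProductGeometry.angle x z ≤ α} ⊆ act g ⁻¹' C := by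
    rintro z ⟨hz1, hz2⟩
    rw [← hangle g, hg, InnerProductGeometry.angle_smul_left_of_pos _ _ hxpos] at hz2
    rw [← hnorm g] at hz1
    set w : E3 := act g z with hw
    set θ := InnerProductGeometry.angle e2 w with hθ
    have hθ0 : 0 ≤ θ := InnerProductGeometry.angle_nonneg _ _
    have hcc : Real.cos α ≤ Real.cos θ :=
      Real.cos_le_cos_of_nonneg_of_le_pi hθ0 (by linarith [Real.pi_pos]) hz2
    have hinner : Real.cos θ * ‖w‖ = w 2 := by
      have h2 := InnerProductGeometry.cos_angle_mul_norm_mul_norm e2 w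
      rw [he2n, one_mul] at h2
      rw [h2, he2]
      simp [EuclideanSpace.inner_single_left]
    have hwn : 0 ≤ ‖w‖ := norm_nonneg _
    have hc1 : Real.cos θ ≤ 1 := Real.cos_le_one _
    have hw2 : 0 ≤ w 2 := by
      rw [← hinner]; exact mul_nonneg (hcos.le.trans hcc) hwn
    have hw2' : w 2 ≤ 1 := by
      rw [← hinner]
      nlinarith
    refine ⟨hw2, hw2', ?_⟩
    have hsq : ‖w‖ ^ 2 = w 0 ^ 2 + w 1 ^ 2 + w 2 ^ 2 := by
      rw [EuclideanSpace.norm_sq_eq, Fin.sum_univ_three]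
      simp
    have hge : Real.cos α * ‖w‖ ≤ w 2 := by
      rw [← hinner]; exact mul_le_mul_of_nonneg_right hcc hwn
    have hge2 : (Real.cos α * ‖w‖) ^ 2 ≤ w 2 ^ 2 :=
      pow_le_pow_left₀ (mul_nonneg hcos.le hwn) hge 2
    have htan : Real.tan α ^ 2 = 1 / Real.cos α ^ 2 - 1 := by
      rw [Real.tan_eq_sin_div_cos, div_pow, eq_sub_iff_add_eq, div_add_one (by positivity),
        Real.sin_sq_add_cos_sq]
    have hle : ‖w‖ ^ 2 ≤ w 2 ^ 2 / Real.cos α ^ 2 := by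
      rw [le_div_iff₀ (by positivity)]
      nlinarith
    have : w 0 ^ 2 + w 1 ^ 2 = ‖w‖ ^ 2 - w 2 ^ 2 := by rw [hsq]; ring
    rw [this, htan]
    have e3 : (1 / Real.cos α ^ 2 - 1) * w 2 ^ 2 = w 2 ^ 2 / Real.cos α ^ 2 - w 2 ^ 2 := by ring
    rw [e3]
    linarith
  calc volume {z : E3 | ‖z‖ < 1 ∧ InnerProductGeometry.angle x z ≤ α}
      ≤ volume (act g ⁻¹' C) := measure_mono hsub
    _ = volume C := (hmp g).measure_preimage hCm.nullMeasurableSet
    _ ≤ _ := hcone _ hT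

end Pool.Agent.Helper865.Astro
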