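import Pool.Agent.Helper865.Astro.Defs

set_option autoImplicit false

open MeasureTheory Set Filter Topology
open scoped NNReal ENNReal

namespace Pool.Agent.Helper865.Astro


lemma cap_meas
    (hmul : ∀ (g h : O3) (x : E3), act (g * h) x = act g (act h x))
    (hone : ∀ x : E3, act 1 x = x)
    (hangle : ∀ (g : O3) (x y : E3),
      InnerProductGeometry.angle (act g x) (act g y) = InnerProductGeometry.angle x y)
    (hnorm : ∀ (g : O3) (x : E3), ‖act g x‖ = ‖x‖)
    (hcont : Continuous fun p : O3 × E3 => act p.1 p.2)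
    (htrans : ∀ x z : E3, ‖x‖ = ‖z‖ → ∃ g : O3, act g x = z)
    (hmp : ∀ g : O3, MeasurePreserving (act g) (volume : Measure E3) volume)
    (hsec : ∀ (x : E3) (α : ℝ), x ≠ 0 → 0 < α → α < Real.pi / 2 →
      volume {z : E3 | ‖z‖ < 1 ∧ InnerProductGeometry.angle x z ≤ α} ≤
        ENNReal.ofReal (Real.pi * Real.tan α ^ 2 / 3))
    (ν : Measure O3) [IsProbabilityMeasure ν] [ν.IsMulLeftInvariant]
    {x z : E3} (hx : x ≠ 0) (hz : z ≠ 0) {α : ℝ} (h0 : 0 < α) (h1 : α < Real.pi / 2) :
    ν {g : O3 | InnerProductGeometry.angle (act g x) z ≤ α} ≤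
      ENNReal.ofReal (Real.tan α ^ 2 / 4) := by
  -- the cap measure does not depend on the centre
  have hconst : ∀ z' : E3, z' ≠ 0 →
      ν {g : O3 | InnerProductGeometry.angle (act g x) z' ≤ α} =
        ν {g : O3 | InnerProductGeometry.angle (act g x) z ≤ α} := by
    intro z' hz'
    have hzn : 0 < ‖z‖ := norm_pos_iff.2 hz
    have hzn' : 0 < ‖z'‖ := norm_pos_iff.2 hz'
    set c : ℝ := ‖z'‖ / ‖z‖ with hc
    have hcpos : 0 < c := div_pos hzn' hzn
    have hnc : ‖c • z‖ = ‖z'‖ := by
      rw [norm_smul, Real.norm_eq_abs, abs_of_pos hcpos, hc, div_mul_cancel₀ _ hzn.ne']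
    obtain ⟨h, hh⟩ := htrans (c • z) z' hnc
    have hset : {g : O3 | InnerProductGeometry.angle (act g x) z' ≤ α} =
        (fun g : O3 => h⁻¹ * g) ⁻¹' {g : O3 | InnerProductGeometry.angle (act g x) z ≤ α} := by
      ext g
      simp only [mem_setOf_eq, mem_preimage]
      have e1 : InnerProductGeometry.angle (act g x) z' =
          InnerProductGeometry.angle (act (h⁻¹ * g) x) z := by
        rw [← hangle h⁻¹ (act g x) z', ← hmul, ← hh, ← hmul, inv_mul_cancel, hone,
          InnerProductGeometry.angle_smul_right_of_pos _ _ hcpos]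
      rw [e1]
    rw [hset]
    exact measure_preimage_mul ν h⁻¹ _
  have hactc : Continuous fun p : O3 × E3 => act p.1 x :=
    hcont.comp (continuous_fst.prodMk continuous_const)
  have hangm : Measurable fun p : O3 × E3 => InnerProductGeometry.angle (act p.1 x) p.2 := by
    unfold InnerProductGeometry.angle
    refine Real.continuous_arccos.measurable.comp ?_
    refine Measurable.div ?_ ?_
    · exact (hactc.inner continuous_snd).measurable
    · exact (hactc.norm.mul continuous_snd.norm).measurable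
  have hS : MeasurableSet {p : O3 × E3 | ‖p.2‖ < 1 ∧ InnerProductGeometry.angle (act p.1 x) p.2 ≤ α} := by
    refine MeasurableSet.inter ?_ ?_
    · exact measurableSet_lt continuous_snd.norm.measurable measurable_const
    · exact measurableSet_le hangm measurable_const
  have hA : (ν.prod (volume : Measure E3))
      {p : O3 × E3 | ‖p.2‖ < 1 ∧ InnerProductGeometry.angle (act p.1 x) p.2 ≤ α} ≤
      ENNReal.ofReal (Real.pi * Real.tan α ^ 2 / 3) := by
    rw [Measure.prod_apply hS]
    calc ∫⁻ g, volume (Prod.mk g ⁻¹'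
          {p : O3 × E3 | ‖p.2‖ < 1 ∧ InnerProductGeometry.angle (act p.1 x) p.2 ≤ α}) ∂ν
        ≤ ∫⁻ _g : O3, ENNReal.ofReal (Real.pi * Real.tan α ^ 2 / 3) ∂ν := by
          refine lintegral_mono fun g => ?_
          refine hsec (act g x) α ?_ h0 h1
          rw [← norm_pos_iff, hnorm]
          exact norm_pos_iff.2 hx
      _ = ENNReal.ofReal (Real.pi * Real.tan α ^ 2 / 3) := by
          rw [lintegral_const, measure_univ, mul_one]
  have hB : ν {g : O3 | InnerProductGeometry.angle (act g x) z ≤ α} *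
      volume (Metric.ball (0 : E3) 1) ≤ (ν.prod (volume : Measure E3))
      {p : O3 × E3 | ‖p.2‖ < 1 ∧ InnerProductGeometry.angle (act p.1 x) p.2 ≤ α} := by
    rw [Measure.prod_apply_symm hS, ← setLIntegral_const]
    refine le_trans ?_ (setLIntegral_le_lintegral (Metric.ball (0 : E3) 1) _)
    refine lintegral_mono_ae ?_
    have hne : ∀ᵐ w : E3 ∂(volume.restrict (Metric.ball (0 : E3) 1)), w ≠ 0 :=
      ae_restrict_of_ae (by
        rw [ae_iff]
        simp)
    filter_upwards [hne, ae_restrict_mem Metric.isOpen_ball.measurableSet] with w hw hwb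
    rw [← hconst w hw]
    refine measure_mono fun g hg => ?_
    exact ⟨by simpa using hwb, hg⟩
  have hvol : volume (Metric.ball (0 : E3) 1) = ENNReal.ofReal (Real.pi * 4 / 3) := by
    rw [EuclideanSpace.volume_ball_fin_three]
    simp
  have hC := hB.trans hA
  rw [hvol] at hC
  have hpi := Real.pi_pos
  rw [← ENNReal.le_div_iff_mul_le (Or.inl (by
      rw [Ne, ENNReal.ofReal_eq_zero, not_le]; positivity)) (Or.inl ENNReal.ofReal_ne_top),
    ← ENNReal.ofReal_div_of_pos (by positivity)] at hC
  refine hC.trans (ENNReal.ofReal_le_ofReal (le_of_eq ?_))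
  field_simp

end Pool.Agent.Helper865.Astro
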