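import Pool.Agent.Helper865.Astro.Defs

set_option autoImplicit false

open MeasureTheory Set Filter Topology
open scoped NNReal ENNReal

namespace Pool.Agent.Helper865.Astro


lemma lower_abs {Ω : Type*} [MeasurableSpace Ω] (P : Measure Ω) [IsProbabilityMeasure P]
    (T : Ω → ℝ≥0∞) (C : ℕ → Set Ω) (hC : ∀ j, MeasurableSet (C j)) {p h : ℝ} (hp : 0 < p)
    (hh : 0 < h) (hP : ∀ j, P (C j) ≤ ENNReal.ofReal p)
    (hT : ∀ (ω : Ω) (n : ℕ), (∀ j ≤ n, ω ∉ C j) → ENNReal.ofReal (n * h) ≤ T ω) :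
    ENNReal.ofReal (h / (2 * p) - 2 * h) ≤ ∫⁻ ω, T ω ∂P := by
  classical
  set A : ℕ → Set Ω := fun n => {ω | ∀ j ≤ n, ω ∉ C j} with hA
  have hAeq : ∀ n, A n = ⋂ j ∈ Finset.range (n+1), (C j)ᶜ := by
    intro n
    ext ω
    simp only [hA, mem_ofPred_eq, mem_iInter, Finset.mem_range, mem_compl_iff, Nat.lt_succ_iff]
  have hAm : ∀ n, MeasurableSet (A n) := by
    intro n
    rw [hAeq]
    exact Finset.measurableSet_biInter _ fun j _ => (hC j).compl
  have hAc : ∀ n, (A n)ᶜ = ⋃ j ∈ Finset.range (n+1), C j := by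
    intro n
    rw [hAeq]
    simp only [compl_iInter, compl_compl]
  have hPA : ∀ n : ℕ, ENNReal.ofReal (1 - ((n:ℝ)+1) * p) ≤ P (A n) := by
    intro n
    have h1 : P ((A n)ᶜ) ≤ ENNReal.ofReal (((n:ℝ)+1) * p) := by
      rw [hAc]
      refine (measure_biUnion_finset_le _ _).trans ?_
      refine (Finset.sum_le_sum fun j _ => hP j).trans ?_
      rw [Finset.sum_const, Finset.card_range, nsmul_eq_mul, ENNReal.ofReal_mul (by positivity)]
      apply le_of_eq
      congr 1
      have : ((n:ℝ)+1) = ((n+1 : ℕ) : ℝ) := by push_cast; ring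
      rw [this, ENNReal.ofReal_natCast]
    have h2 : P (A n) + P ((A n)ᶜ) = 1 := by
      rw [measure_add_measure_compl (hAm n)]; exact measure_univ
    have h3 : 1 - P ((A n)ᶜ) ≤ P (A n) := by
      rw [tsub_le_iff_right, h2]
    refine le_trans ?_ h3
    rw [ENNReal.ofReal_sub _ (by positivity), ENNReal.ofReal_one]
    exact tsub_le_tsub_left h1 1
  set J : ℕ := ⌊1 / p⌋₊ with hJ
  have hJ1 : (J:ℝ) * p ≤ 1 := by
    have : (J:ℝ) ≤ 1 / p := Nat.floor_le (by positivity)
    calc (J:ℝ) * p ≤ 1 / p * p := by gcongr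
      _ = 1 := by field_simp
  have hJ2 : 1 / p < J + 1 := Nat.lt_floor_add_one _
  -- pointwise bound
  have hpt : ∀ ω, ∑ n ∈ Finset.Icc 1 J, (A n).indicator (fun _ => ENNReal.ofReal h) ω ≤ T ω := by
    intro ω
    by_cases hex : ∃ n ∈ Finset.Icc 1 J, ω ∈ A n
    · obtain ⟨n0, hn0, hω0⟩ := hex
      obtain ⟨m, hm, hmax⟩ := ((Finset.Icc 1 J).filter fun n => ω ∈ A n).exists_max_image id
        ⟨n0, by simp only [Finset.mem_filter]; exact ⟨hn0, hω0⟩⟩
      rw [Finset.mem_filter] at hm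
      refine le_trans ?_ (hT ω m hm.2)
      have : ∑ n ∈ Finset.Icc 1 J, (A n).indicator (fun _ => ENNReal.ofReal h) ω
          ≤ ∑ n ∈ Finset.Icc 1 m, ENNReal.ofReal h := by
        have e1 : ∑ n ∈ Finset.Icc 1 J, (A n).indicator (fun _ => ENNReal.ofReal h) ω
            = ∑ n ∈ (Finset.Icc 1 J).filter (fun n => ω ∈ A n), ENNReal.ofReal h := by
          rw [Finset.sum_filter]
          refine Finset.sum_congr rfl fun n _ => ?_
          rw [indicator_apply]
        rw [e1]
        refine Finset.sum_le_sum_of_subset ?_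
        intro n hn
        have := hmax n hn
        rw [Finset.mem_filter, Finset.mem_Icc] at hn
        rw [Finset.mem_Icc]
        exact ⟨hn.1.1, this⟩
      refine this.trans ?_
      rw [Finset.sum_const, Nat.card_Icc, nsmul_eq_mul, ENNReal.ofReal_mul (by positivity),
        ENNReal.ofReal_natCast]
      simp
    · push Not at hex
      rw [Finset.sum_eq_zero]
      · exact zero_le
      · intro n hn
        rw [indicator_of_notMem (hex n hn)]
  have hlow : ∑ n ∈ Finset.Icc 1 J, ENNReal.ofReal (h * (1 - (n+1) * p)) ≤ ∫⁻ ω, T ω ∂P := by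
    calc ∑ n ∈ Finset.Icc 1 J, ENNReal.ofReal (h * (1 - (n+1) * p))
        ≤ ∑ n ∈ Finset.Icc 1 J, ENNReal.ofReal h * P (A n) := by
          refine Finset.sum_le_sum fun n _ => ?_
          rw [ENNReal.ofReal_mul hh.le]
          gcongr
          exact hPA n
      _ = ∑ n ∈ Finset.Icc 1 J, ∫⁻ ω, (A n).indicator (fun _ => ENNReal.ofReal h) ω ∂P := by
          refine Finset.sum_congr rfl fun n _ => ?_
          rw [lintegral_indicator (hAm n), lintegral_const, Measure.restrict_apply_univ]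
      _ = ∫⁻ ω, ∑ n ∈ Finset.Icc 1 J, (A n).indicator (fun _ => ENNReal.ofReal h) ω ∂P := by
          rw [lintegral_finsetSum]
          intro n _
          exact measurable_const.indicator (hAm n)
      _ ≤ ∫⁻ ω, T ω ∂P := lintegral_mono hpt
  refine le_trans ?_ hlow
  have hsumle : ∀ (s : Finset ℕ) (f : ℕ → ℝ), ENNReal.ofReal (∑ n ∈ s, f n)
      ≤ ∑ n ∈ s, ENNReal.ofReal (f n) := by
    intro s f
    induction s using Finset.induction_on with
    | empty => simp
    | insert a s ha ih =>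
      rw [Finset.sum_insert ha, Finset.sum_insert ha]
      exact ENNReal.ofReal_add_le.trans (by gcongr)
  refine le_trans ?_ (hsumle _ _)
  apply ENNReal.ofReal_le_ofReal
  have hsum : ∀ K : ℕ, ∑ n ∈ Finset.Icc 1 K, (h * (1 - ((n:ℝ)+1) * p))
      = h * (K - p * K * (K+3) / 2) := by
    intro K
    induction K with
    | zero => simp
    | succ K ih =>
      rw [Finset.sum_Icc_succ_top (by omega), ih]
      push_cast
      ring
  rw [hsum J]
  have hJn : (0:ℝ) ≤ J := Nat.cast_nonneg _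
  have h1 : p * J * (J+3) ≤ 1 * ((J:ℝ)+3) := by
    gcongr
    linarith
  have h2 : h / (2*p) = h * ((1/p) / 2) := by field_simp
  rw [h2]
  nlinarith

end Pool.Agent.Helper865.Astro
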