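import Mathlib

set_option autoImplicit false

open MeasureTheory Set Filter Topology
open scoped NNReal ENNReal

namespace Pool.Agent.Helper865.Astro

/-- Euclidean three-space -/
abbrev E3 := EuclideanSpace ℝ (Fin 3)

/-- the orthogonal group O(3) -/
abbrev O3 := ↥(Matrix.orthogonalGroup (Fin 3) ℝ)

instance instMeasO3 : MeasurableSpace O3 := borel O3
instance instBorO3 : BorelSpace O3 := ⟨rfl⟩

/-- the action of an orthogonal matrix on a vector -/
noncomputable def act (g : O3) (x : E3) : E3 :=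
  Matrix.toEuclideanLin (g : Matrix (Fin 3) (Fin 3) ℝ) x

/-- geodesic distance on the sphere of radius `ρ` centred at the origin -/
noncomputable def gd (ρ : ℝ) (x y : E3) : ℝ := ρ * InnerProductGeometry.angle x y

/-- paths of maximal speed one on the sphere of radius `ρ`, starting at `N` -/
def Route (ρ : ℝ) (N : E3) : Type :=
  {γ : C(ℝ≥0, E3) // γ 0 = N ∧ (∀ t, ‖γ t‖ = ρ) ∧
    ∀ s t : ℝ≥0, gd ρ (γ s) (γ t) ≤ |(s : ℝ) - (t : ℝ)|}

instance instTopRoute (ρ : ℝ) (N : E3) : TopologicalSpace (Route ρ N) := instTopologicalSpaceSubtype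
instance instMeasRoute (ρ : ℝ) (N : E3) : MeasurableSpace (Route ρ N) := borel _
instance instBorRoute (ρ : ℝ) (N : E3) : BorelSpace (Route ρ N) := ⟨rfl⟩

/-- the meeting time -/
noncomputable def meet (ρ r : ℝ) (γ₁ γ₂ : C(ℝ≥0, E3)) (g₁ g₂ : O3) : ℝ≥0∞ :=
  ⨅ (t : ℝ≥0) (_ : gd ρ (act g₁ (γ₁ t)) (act g₂ (γ₂ t)) ≤ r), (t : ℝ≥0∞)

/-- the expected meeting time when both players use `μ` and the frames are drawn from `ν` -/
noncomputable def expMeet (ν : Measure O3) (ρ r : ℝ) (N : E3) (μ : Measure (Route ρ N)) : ℝ≥0∞ :=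
  ∫⁻ x : (Route ρ N × Route ρ N) × (O3 × O3), meet ρ r x.1.1.1 x.1.2.1 x.2.1 x.2.2
    ∂((μ.prod μ).prod (ν.prod ν))

end Pool.Agent.Helper865.Astro
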