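import Pool.Agent.Helper865.Astro.Defs

set_option autoImplicit false

open MeasureTheory Set Filter Topology
open scoped NNReal ENNReal

namespace Pool.Agent.Helper865.Astro


lemma gd_triangle {ρ : ℝ} (hρ : 0 ≤ ρ) (x y z : E3) : gd ρ x z ≤ gd ρ x y + gd ρ y z := by
  unfold gd
  rw [← mul_add]
  exact mul_le_mul_of_nonneg_left (InnerProductGeometry.angle_le_angle_add_angle x y z) hρ

lemma gd_comm (ρ : ℝ) (x y : E3) : gd ρ x y = gd ρ y x := by
  unfold gd
  rw [InnerProductGeometry.angle_comm]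

private lemma close_sets_act (hact : Measurable fun p : O3 × E3 => act p.1 p.2) {α : Type*} [MeasurableSpace α]
    (f : α → O3) (g : α → E3) (h1 : Measurable f) (h2 : Measurable g) :
    Measurable (fun x => act (f x) (g x)) := by
  have h3 : Measurable (fun x => (f x, g x)) := h1.prodMk h2
  have h4 := Measurable.comp hact h3
  exact h4

lemma close_sets
    (hcont : Continuous fun p : O3 × E3 => act p.1 p.2) {ρ : ℝ} {N : E3} (s : ℝ) (t : ℝ≥0) :
    MeasurableSet {x : (Route ρ N × Route ρ N) × (O3 × O3) |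
      gd ρ (act x.2.1 (x.1.1.1 t)) (act x.2.2 (x.1.2.1 t)) ≤ s} := by
  have hev : Measurable (fun γ : Route ρ N => γ.1 t) := by
    have hc : Continuous (fun γ : Route ρ N => γ.1 t) :=
      (continuous_eval_const (F := C(ℝ≥0, E3)) t).comp continuous_subtype_val
    exact hc.measurable
  have hact : Measurable fun p : O3 × E3 => act p.1 p.2 := hcont.measurable
  have m1 : Measurable (fun x : (Route ρ N × Route ρ N) × (O3 × O3) => act x.2.1 (x.1.1.1 t)) :=
    close_sets_act hact _ _ (measurable_fst.comp measurable_snd) (hev.comp (measurable_fst.comp measurable_fst))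
  have m2 : Measurable (fun x : (Route ρ N × Route ρ N) × (O3 × O3) => act x.2.2 (x.1.2.1 t)) :=
    close_sets_act hact _ _ (measurable_snd.comp measurable_snd) (hev.comp (measurable_snd.comp measurable_fst))
  have m3 : Measurable (fun x : (Route ρ N × Route ρ N) × (O3 × O3) =>
      gd ρ (act x.2.1 (x.1.1.1 t)) (act x.2.2 (x.1.2.1 t))) := by
    unfold gd InnerProductGeometry.angle
    exact (Real.measurable_arccos.comp ((m1.inner m2).div (m1.norm.mul m2.norm))).const_mul ρ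
  exact measurableSet_le m3 measurable_const

/-- if the two players are far apart at all grid times `j * r`, `j ≤ n`, they do not meet before
time `n * r` -/
lemma meet_ge
    (hangle : ∀ (g : O3) (x y : E3),
      InnerProductGeometry.angle (act g x) (act g y) = InnerProductGeometry.angle x y)
    {ρ r : ℝ} (hρ : 0 < ρ) (hr : 0 < r) {N : E3} (γ₁ γ₂ : Route ρ N) (g₁ g₂ : O3) (n : ℕ)
    (h : ∀ j ≤ n, ¬ gd ρ (act g₁ (γ₁.1 (j * r.toNNReal))) (act g₂ (γ₂.1 (j * r.toNNReal))) ≤ 2 * r) :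
    ENNReal.ofReal (n * r) ≤ meet ρ r γ₁.1 γ₂.1 g₁ g₂ := by
  refine le_iInf₂ fun t ht => ?_
  by_contra hcon
  push Not at hcon
  have htn : (t : ℝ) < n * r := by
    rw [← ENNReal.ofReal_coe_nnreal] at hcon
    exact (ENNReal.ofReal_lt_ofReal_iff_of_nonneg t.2).1 hcon
  set j : ℕ := ⌊(t : ℝ) / r + 1 / 2⌋₊ with hj
  have htr : (0 : ℝ) ≤ (t : ℝ) / r + 1 / 2 := by positivity
  have h1 : (j : ℝ) ≤ (t : ℝ) / r + 1 / 2 := Nat.floor_le htr
  have h2 : (t : ℝ) / r + 1 / 2 < j + 1 := Nat.lt_floor_add_one _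
  have htn' : (t : ℝ) / r < n := by rwa [div_lt_iff₀ hr]
  have hjn : j ≤ n := by
    have : (j : ℝ) < n + 1 := by linarith
    exact Nat.lt_succ_iff.mp (by exact_mod_cast this)
  have htt : (t : ℝ) = (t : ℝ) / r * r := by field_simp
  have hjr : (((j : ℝ≥0) * r.toNNReal : ℝ≥0) : ℝ) = j * r := by
    rw [NNReal.coe_mul, NNReal.coe_natCast, Real.coe_toNNReal _ hr.le]
  have habs : |(t : ℝ) - j * r| ≤ r / 2 := by
    rw [abs_le]
    constructor <;> nlinarith
  have hgd : ∀ (g : O3) (x y : E3), gd ρ (act g x) (act g y) = gd ρ x y := by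
    intro g x y
    unfold gd
    rw [hangle]
  refine h j hjn ?_
  have a1 : gd ρ (act g₁ (γ₁.1 (j * r.toNNReal))) (act g₁ (γ₁.1 t)) ≤ r / 2 := by
    rw [hgd]
    refine (γ₁.2.2.2 _ _).trans ?_
    rw [hjr, abs_sub_comm]
    exact habs
  have a2 : gd ρ (act g₂ (γ₂.1 t)) (act g₂ (γ₂.1 (j * r.toNNReal))) ≤ r / 2 := by
    rw [hgd]
    refine (γ₂.2.2.2 _ _).trans ?_
    rw [hjr]
    exact habs
  have a3 := gd_triangle hρ.le (act g₁ (γ₁.1 (j * r.toNNReal))) (act g₁ (γ₁.1 t)) (act g₂ (γ₂.1 (j * r.toNNReal)))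
  have a4 := gd_triangle hρ.le (act g₁ (γ₁.1 t)) (act g₂ (γ₂.1 t)) (act g₂ (γ₂.1 (j * r.toNNReal)))
  linarith

end Pool.Agent.Helper865.Astro
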