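import Pool.Agent.Helper865.Astro.Defs

set_option autoImplicit false

open MeasureTheory Set Filter Topology
open scoped NNReal ENNReal

namespace Pool.Agent.Helper865.Astro


lemma lower_bound
    (hcont : Continuous fun p : O3 × E3 => act p.1 p.2)
    (hangle : ∀ (g : O3) (x y : E3),
      InnerProductGeometry.angle (act g x) (act g y) = InnerProductGeometry.angle x y)
    (hnorm : ∀ (g : O3) (x : E3), ‖act g x‖ = ‖x‖)
    (ν : Measure O3) [IsProbabilityMeasure ν] [ν.IsMulLeftInvariant]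
    (hcap : ∀ (x z : E3) (α : ℝ), x ≠ 0 → z ≠ 0 → 0 < α → α < Real.pi / 2 →
      ν {g : O3 | InnerProductGeometry.angle (act g x) z ≤ α} ≤
        ENNReal.ofReal (Real.tan α ^ 2 / 4))
    (habs : ∀ {Ω : Type} [MeasurableSpace Ω] (P : Measure Ω) [IsProbabilityMeasure P]
      (T : Ω → ℝ≥0∞) (C : ℕ → Set Ω), (∀ j, MeasurableSet (C j)) → ∀ {p h : ℝ}, 0 < p →
      0 < h → (∀ j, P (C j) ≤ ENNReal.ofReal p) →
      (∀ (ω : Ω) (n : ℕ), (∀ j ≤ n, ω ∉ C j) → ENNReal.ofReal (n * h) ≤ T ω) →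
      ENNReal.ofReal (h / (2 * p) - 2 * h) ≤ ∫⁻ ω, T ω ∂P)
    (hclose : ∀ {ρ : ℝ} {N : E3} (s : ℝ) (t : ℝ≥0),
      MeasurableSet {x : (Route ρ N × Route ρ N) × (O3 × O3) |
        gd ρ (act x.2.1 (x.1.1.1 t)) (act x.2.2 (x.1.2.1 t)) ≤ s})
    (hmeet : ∀ {ρ r : ℝ}, 0 < ρ → 0 < r → ∀ {N : E3} (γ₁ γ₂ : Route ρ N) (g₁ g₂ : O3) (n : ℕ),
      (∀ j ≤ n, ¬ gd ρ (act g₁ (γ₁.1 (j * r.toNNReal))) (act g₂ (γ₂.1 (j * r.toNNReal))) ≤ 2 * r) →
      ENNReal.ofReal (n * r) ≤ meet ρ r γ₁.1 γ₂.1 g₁ g₂)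
    {ρ r : ℝ} (hρ : 0 < ρ) (hr : 0 < r) (hr2 : 2 * r / ρ < Real.pi / 2) (N : E3)
    (μ : Measure (Route ρ N)) [IsProbabilityMeasure μ] :
    ENNReal.ofReal (2 * r / Real.tan (2 * r / ρ) ^ 2 - 2 * r) ≤ expMeet ν ρ r N μ := by
  have hα : 0 < 2 * r / ρ := by positivity
  have htan : 0 < Real.tan (2 * r / ρ) := Real.tan_pos_of_pos_of_lt_pi_div_two hα hr2
  set p : ℝ := Real.tan (2 * r / ρ) ^ 2 / 4 with hp
  have hp0 : 0 < p := by positivity
  set C : ℕ → Set ((Route ρ N × Route ρ N) × (O3 × O3)) := fun j =>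
    {x | gd ρ (act x.2.1 (x.1.1.1 (j * r.toNNReal))) (act x.2.2 (x.1.2.1 (j * r.toNNReal))) ≤ 2 * r} with hC
  have hCm : ∀ j, MeasurableSet (C j) := fun j => hclose (2 * r) (j * r.toNNReal)
  have hne : ∀ (γ : Route ρ N) (t : ℝ≥0), γ.1 t ≠ 0 := by
    intro γ t h
    have := γ.2.2.1 t
    rw [h, norm_zero] at this
    exact hρ.ne this
  have hPC : ∀ j, ((μ.prod μ).prod (ν.prod ν)) (C j) ≤ ENNReal.ofReal p := by
    intro j
    rw [Measure.prod_apply (hCm j)]
    calc ∫⁻ x, (ν.prod ν) (Prod.mk x ⁻¹' C j) ∂(μ.prod μ)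
        ≤ ∫⁻ _x, ENNReal.ofReal p ∂(μ.prod μ) := by
          apply lintegral_mono
          intro x
          have hm : MeasurableSet (Prod.mk x ⁻¹' C j) := measurable_prodMk_left (hCm j)
          change (ν.prod ν) (Prod.mk x ⁻¹' C j) ≤ ENNReal.ofReal p
          rw [Measure.prod_apply_symm hm]
          calc ∫⁻ y, ν ((fun g => (g, y)) ⁻¹' (Prod.mk x ⁻¹' C j)) ∂ν
              ≤ ∫⁻ _y, ENNReal.ofReal p ∂ν := by
                apply lintegral_mono
                intro y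
                have hz : act y (x.2.1 (j * r.toNNReal)) ≠ 0 := by
                  intro h
                  have h2 := hnorm y (x.2.1 (j * r.toNNReal))
                  rw [h, norm_zero] at h2
                  exact hne x.2 _ (norm_eq_zero.mp h2.symm)
                have h1 := hcap (x.1.1 (j * r.toNNReal)) (act y (x.2.1 (j * r.toNNReal))) (2 * r / ρ)
                  (hne x.1 _) hz hα hr2
                refine le_trans (measure_mono ?_) h1
                intro g hg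
                have hg' : gd ρ (act g (x.1.1 (j * r.toNNReal))) (act y (x.2.1 (j * r.toNNReal))) ≤ 2 * r := hg
                rw [gd] at hg'
                change InnerProductGeometry.angle _ _ ≤ 2 * r / ρ
                rw [le_div_iff₀ hρ, mul_comm]
                exact hg'
            _ = ENNReal.ofReal p := by simp
      _ = ENNReal.ofReal p := by simp
  have key := habs ((μ.prod μ).prod (ν.prod ν))
    (fun x => meet ρ r x.1.1.1 x.1.2.1 x.2.1 x.2.2) C hCm hp0 hr hPC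
    (fun ω n h => hmeet hρ hr ω.1.1 ω.1.2 ω.2.1 ω.2.2 n (fun j hj => h j hj))
  have he : r / (2 * p) - 2 * r = 2 * r / Real.tan (2 * r / ρ) ^ 2 - 2 * r := by
    rw [hp]; field_simp; ring
  rw [he] at key
  exact key

end Pool.Agent.Helper865.Astro
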