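import Pool.Agent.Helper865.Astro.Defs

set_option autoImplicit false

open MeasureTheory Set Filter Topology
open scoped NNReal ENNReal

namespace Pool.Agent.Helper865.Astro


lemma step_angle {ρ h : ℝ} (hρ : 0 < ρ) (x y : E3) (hx : ‖x‖ = ρ) (hy : ‖y‖ = ρ)
    (hh : ‖x - y‖ ≤ h) (hs : Real.pi * h / (4 * ρ) ≤ 1) :
    InnerProductGeometry.angle x y ≤ h / ρ + (Real.pi * h / (4 * ρ)) ^ 3 / 2 := by
  have hpi := Real.pi_pos
  have hh0 : 0 ≤ h := le_trans (norm_nonneg _) hh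
  set θ := InnerProductGeometry.angle x y with hθ
  have hθ0 : 0 ≤ θ := InnerProductGeometry.angle_nonneg x y
  have hθπ : θ ≤ Real.pi := InnerProductGeometry.angle_le_pi x y
  have hcos : Real.cos θ * (ρ * ρ) = inner ℝ x y := by
    have := InnerProductGeometry.cos_angle_mul_norm_mul_norm x y
    rw [hx, hy] at this
    exact this
  have hns : ‖x - y‖ ^ 2 = 2 * ρ ^ 2 - 2 * (Real.cos θ * (ρ * ρ)) := by
    rw [hcos, norm_sub_sq_real, hx, hy]; ring
  have hsin2 : Real.sin (θ / 2) ^ 2 = 1 / 2 - Real.cos θ / 2 := by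
    rw [Real.sin_sq_eq_half_sub]
    congr 3
    ring
  have hsin0 : 0 ≤ Real.sin (θ / 2) :=
    Real.sin_nonneg_of_nonneg_of_le_pi (by linarith) (by linarith)
  have hsq : (2 * ρ * Real.sin (θ / 2)) ^ 2 = ‖x - y‖ ^ 2 := by
    rw [hns]
    have : (2 * ρ * Real.sin (θ / 2)) ^ 2 = 4 * ρ ^ 2 * Real.sin (θ / 2) ^ 2 := by ring
    rw [this, hsin2]; ring
  have heq : 2 * ρ * Real.sin (θ / 2) = ‖x - y‖ := by
    have h1 : 0 ≤ 2 * ρ * Real.sin (θ / 2) := by positivity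
    exact (pow_left_inj₀ h1 (norm_nonneg _) (by norm_num)).1 hsq
  have hle : 2 * ρ * Real.sin (θ / 2) ≤ h := by rw [heq]; exact hh
  have hsle : Real.sin (θ / 2) ≤ h / (2 * ρ) := by
    rw [le_div_iff₀ (by positivity)]; linarith
  have hj : 2 / Real.pi * (θ / 2) ≤ Real.sin (θ / 2) :=
    Real.mul_le_sin (by linarith) (by linarith)
  have hx1 : θ / 2 ≤ Real.pi * h / (4 * ρ) := by
    have h1 : 2 / Real.pi * (θ / 2) ≤ h / (2 * ρ) := hj.trans hsle
    have h2 : θ / 2 = Real.pi / 2 * (2 / Real.pi * (θ / 2)) := by field_simp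
    rw [h2]
    calc Real.pi / 2 * (2 / Real.pi * (θ / 2)) ≤ Real.pi / 2 * (h / (2 * ρ)) :=
          mul_le_mul_of_nonneg_left h1 (by positivity)
      _ = Real.pi * h / (4 * ρ) := by field_simp; ring
  have hx3 : θ / 2 - (θ / 2) ^ 3 / 4 ≤ Real.sin (θ / 2) := by
    rcases eq_or_lt_of_le (show (0:ℝ) ≤ θ / 2 by linarith) with h0 | h0
    · rw [← h0]; simp
    · have h1 := Real.sin_gt_sub_cube h0
      have h2 : 0 ≤ (θ / 2) ^ 3 := by positivity
      linarith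
  have hcube : (θ / 2) ^ 3 ≤ (Real.pi * h / (4 * ρ)) ^ 3 :=
    pow_le_pow_left₀ (by linarith) hx1 3
  have : h / ρ = 2 * (h / (2 * ρ)) := by field_simp
  rw [this]
  linarith

lemma chain_angle {ρ : ℝ} (hρ : 0 < ρ) {a b : ℝ} (σ : ℝ → E3)
    (hn : ∀ v ∈ Icc a b, ‖σ v‖ = ρ)
    (hc : ∀ v ∈ Icc a b, ∀ w ∈ Icc a b, ‖σ v - σ w‖ ≤ |v - w|) (v h : ℝ) (hv : a ≤ v)
    (hh : 0 ≤ h) (hs : Real.pi * h / (4 * ρ) ≤ 1) (n : ℕ) (hb : v + n * h ≤ b) :
    InnerProductGeometry.angle (σ v) (σ (v + n * h)) ≤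
      n * (h / ρ + (Real.pi * h / (4 * ρ)) ^ 3 / 2) := by
  induction n with
  | zero =>
    simp only [Nat.cast_zero, zero_mul, add_zero]
    have hvb : v ≤ b := by simpa using hb
    have h1 : ‖σ v‖ = ρ := hn v ⟨hv, hvb⟩
    have h2 : σ v ≠ 0 := by
      intro h0; rw [h0, norm_zero] at h1; linarith
    rw [InnerProductGeometry.angle_self h2]
  | succ n ih =>
    have hnh : (0:ℝ) ≤ n * h := by positivity
    have e1 : v + ((n + 1 : ℕ) : ℝ) * h = v + n * h + h := by push_cast; ring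
    rw [e1] at hb ⊢
    have m1 : v + n * h ∈ Icc a b := ⟨by linarith, by linarith⟩
    have m2 : v + n * h + h ∈ Icc a b := ⟨by linarith, hb⟩
    have h1 := ih (by linarith)
    have h2 := InnerProductGeometry.angle_le_angle_add_angle (σ v) (σ (v + n * h))
      (σ (v + n * h + h))
    have h3 := step_angle hρ (σ (v + n * h)) (σ (v + n * h + h)) (hn _ m1) (hn _ m2) (h := h)
      (by
        refine (hc _ m1 _ m2).trans ?_
        rw [show v + n * h - (v + n * h + h) = -h by ring, abs_neg, abs_of_nonneg hh]) hs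
    push_cast
    linarith

lemma chord_to_gd_le {ρ : ℝ} (hρ : 0 < ρ) {a b : ℝ} (σ : ℝ → E3)
    (hn : ∀ v ∈ Icc a b, ‖σ v‖ = ρ)
    (hc : ∀ v ∈ Icc a b, ∀ w ∈ Icc a b, ‖σ v - σ w‖ ≤ |v - w|) (v w : ℝ) (hv : v ∈ Icc a b)
    (hw : w ∈ Icc a b) (hvw : v ≤ w) :
    gd ρ (σ v) (σ w) ≤ w - v := by
  set L := w - v with hL
  have hL0 : 0 ≤ L := by rw [hL]; linarith
  have hpi := Real.pi_pos
  have key : ∀ᶠ n : ℕ in atTop, InnerProductGeometry.angle (σ v) (σ w) ≤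
      L / ρ + (Real.pi * L / (4 * ρ)) ^ 3 / 2 * ((n:ℝ)⁻¹) ^ 2 := by
    have ht : Tendsto (fun n : ℕ => (n:ℝ)) atTop atTop := tendsto_natCast_atTop_atTop
    filter_upwards [ht.eventually_ge_atTop (Real.pi * L / (4 * ρ)), eventually_gt_atTop 0]
      with n h1 h2
    have hn0 : (0:ℝ) < n := by exact_mod_cast h2
    have hs : Real.pi * (L / n) / (4 * ρ) ≤ 1 := by
      have : Real.pi * (L / n) / (4 * ρ) = (Real.pi * L / (4 * ρ)) / n := by field_simp
      rw [this, div_le_one hn0]; exact h1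
    have e1 : v + n * (L / n) = w := by
      rw [mul_div_cancel₀ _ (ne_of_gt hn0), hL]; ring
    have := chain_angle hρ σ hn hc v (L / n) hv.1 (by positivity) hs n (by rw [e1]; exact hw.2)
    rw [e1] at this
    refine this.trans (le_of_eq ?_)
    field_simp
  have hlim : Tendsto (fun n : ℕ => L / ρ + (Real.pi * L / (4 * ρ)) ^ 3 / 2 * ((n:ℝ)⁻¹) ^ 2)
      atTop (𝓝 (L / ρ + (Real.pi * L / (4 * ρ)) ^ 3 / 2 * 0 ^ 2)) := by
    refine tendsto_const_nhds.add (tendsto_const_nhds.mul ?_)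
    exact (tendsto_inv_atTop_nhds_zero_nat (𝕜 := ℝ)).pow 2
  have hle := le_of_tendsto_of_tendsto tendsto_const_nhds hlim
    (show (fun _ : ℕ => InnerProductGeometry.angle (σ v) (σ w)) ≤ᶠ[atTop] _ from key)
  unfold gd
  have h3 : InnerProductGeometry.angle (σ v) (σ w) ≤ L / ρ := by simpa using hle
  calc ρ * InnerProductGeometry.angle (σ v) (σ w) ≤ ρ * (L / ρ) :=
        mul_le_mul_of_nonneg_left h3 hρ.le
    _ = L := by field_simp

/-- a path on the sphere that is 1-Lipschitz for the chordal distance on an interval is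
1-Lipschitz for the geodesic distance -/
lemma chord_to_gd {ρ : ℝ} (hρ : 0 < ρ) {a b : ℝ} (σ : ℝ → E3)
    (hn : ∀ v ∈ Icc a b, ‖σ v‖ = ρ)
    (hc : ∀ v ∈ Icc a b, ∀ w ∈ Icc a b, ‖σ v - σ w‖ ≤ |v - w|) :
    ∀ v ∈ Icc a b, ∀ w ∈ Icc a b, gd ρ (σ v) (σ w) ≤ |v - w| := by
  intro v hv w hw
  rcases le_total v w with h | h
  · have := chord_to_gd_le hρ σ hn hc v w hv hw h
    rw [abs_sub_comm, abs_of_nonneg (by linarith)]
    exact this
  · have := chord_to_gd_le hρ σ hn hc w v hw hv h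
    rw [abs_of_nonneg (by linarith)]
    unfold gd at this ⊢
    rw [InnerProductGeometry.angle_comm]
    exact this

end Pool.Agent.Helper865.Astro
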