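import Pool.Agent.Helper865.Astro.Defs

set_option autoImplicit false

open MeasureTheory Set Filter Topology
open scoped NNReal ENNReal

namespace Pool.Agent.Helper865.Astro


/-- the spiral of constant pitch, as a function of the colatitude -/
noncomputable def spir (ρ k θ : ℝ) : E3 :=
  !₂[ρ * (Real.sin θ * Real.cos (k * θ)), ρ * (Real.sin θ * Real.sin (k * θ)), ρ * Real.cos θ]

lemma norm_spir {ρ : ℝ} (hρ : 0 ≤ ρ) (k θ : ℝ) : ‖spir ρ k θ‖ = ρ := by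
  have h1 := Real.sin_sq_add_cos_sq θ
  have h2 := Real.sin_sq_add_cos_sq (k * θ)
  rw [EuclideanSpace.norm_eq, Fin.sum_univ_three]
  simp only [spir, PiLp.toLp_apply, Matrix.cons_val_zero, Matrix.cons_val_one, Matrix.cons_val,
    Real.norm_eq_abs, sq_abs]
  have h3 : (ρ * (Real.sin θ * Real.cos (k * θ))) ^ 2 + (ρ * (Real.sin θ * Real.sin (k * θ))) ^ 2 +
      (ρ * Real.cos θ) ^ 2 = ρ ^ 2 := by
    have h4 : (ρ * (Real.sin θ * Real.cos (k * θ))) ^ 2 +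
      (ρ * (Real.sin θ * Real.sin (k * θ))) ^ 2 + (ρ * Real.cos θ) ^ 2 =
      ρ ^ 2 * (Real.sin θ ^ 2 * (Real.sin (k * θ) ^ 2 + Real.cos (k * θ) ^ 2) +
        Real.cos θ ^ 2) := by ring
    rw [h4, h2, mul_one, h1, mul_one]
  rw [h3, Real.sqrt_sq hρ]

/-- derivative of the spiral -/
noncomputable def spir_d (ρ k θ : ℝ) : E3 :=
  !₂[ρ * (Real.cos θ * Real.cos (k * θ) + Real.sin θ * (-Real.sin (k * θ) * k)),
    ρ * (Real.cos θ * Real.sin (k * θ) + Real.sin θ * (Real.cos (k * θ) * k)), ρ * (-Real.sin θ)]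

lemma spir_d_norm {ρ k : ℝ} (hρ : 0 < ρ) (hk : 0 < k) {θ : ℝ} (hθ : 0 ≤ Real.sin θ) :
    ‖spir_d ρ k θ‖ ≤ ρ + ρ * k * Real.sin θ := by
  have h1 := Real.sin_sq_add_cos_sq θ
  have h2 := Real.sin_sq_add_cos_sq (k * θ)
  rw [EuclideanSpace.norm_eq, Fin.sum_univ_three]
  simp only [spir_d, PiLp.toLp_apply, Matrix.cons_val_zero, Matrix.cons_val_one, Matrix.cons_val,
    Real.norm_eq_abs, sq_abs]
  have h0 : 0 ≤ ρ * k * Real.sin θ := by positivity
  apply Real.sqrt_le_iff.2 ⟨by linarith, ?_⟩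
  have h4 : (ρ * (Real.cos θ * Real.cos (k * θ) + Real.sin θ * (-Real.sin (k * θ) * k))) ^ 2 +
      (ρ * (Real.cos θ * Real.sin (k * θ) + Real.sin θ * (Real.cos (k * θ) * k))) ^ 2 +
      (ρ * (-Real.sin θ)) ^ 2 =
      ρ ^ 2 * (Real.cos θ ^ 2 * (Real.sin (k * θ) ^ 2 + Real.cos (k * θ) ^ 2) +
        k ^ 2 * Real.sin θ ^ 2 * (Real.sin (k * θ) ^ 2 + Real.cos (k * θ) ^ 2) +
        Real.sin θ ^ 2) := by ring
  rw [h4, h2, mul_one, mul_one]
  have h5 : ρ ^ 2 * (Real.cos θ ^ 2 + k ^ 2 * Real.sin θ ^ 2 + Real.sin θ ^ 2) =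
      ρ ^ 2 * (1 + k ^ 2 * Real.sin θ ^ 2) := by
    rw [← h1]
    ring
  rw [h5]
  nlinarith [mul_nonneg hρ.le h0]

lemma spir_deriv (ρ k θ : ℝ) : HasDerivAt (spir ρ k) (spir_d ρ k θ) θ := by
  have h1 : HasDerivAt (fun θ : ℝ => ρ * (Real.sin θ * Real.cos (k * θ)))
      (ρ * (Real.cos θ * Real.cos (k * θ) + Real.sin θ * (-Real.sin (k * θ) * k))) θ := by
    have h2 : HasDerivAt (fun θ : ℝ => k * θ) k θ := by
      simpa using (hasDerivAt_id θ).const_mul k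
    exact ((Real.hasDerivAt_sin θ).mul h2.cos).const_mul ρ
  have h2 : HasDerivAt (fun θ : ℝ => ρ * (Real.sin θ * Real.sin (k * θ)))
      (ρ * (Real.cos θ * Real.sin (k * θ) + Real.sin θ * (Real.cos (k * θ) * k))) θ := by
    have h2 : HasDerivAt (fun θ : ℝ => k * θ) k θ := by
      simpa using (hasDerivAt_id θ).const_mul k
    exact ((Real.hasDerivAt_sin θ).mul h2.sin).const_mul ρ
  have h3 : HasDerivAt (fun θ : ℝ => ρ * Real.cos θ) (ρ * (-Real.sin θ)) θ :=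
    (Real.hasDerivAt_cos θ).const_mul ρ
  have h4 : HasDerivAt (fun θ : ℝ => (![ρ * (Real.sin θ * Real.cos (k * θ)),
      ρ * (Real.sin θ * Real.sin (k * θ)), ρ * Real.cos θ] : Fin 3 → ℝ))
      ![ρ * (Real.cos θ * Real.cos (k * θ) + Real.sin θ * (-Real.sin (k * θ) * k)),
    ρ * (Real.cos θ * Real.sin (k * θ) + Real.sin θ * (Real.cos (k * θ) * k)),
      ρ * (-Real.sin θ)] θ := by
    rw [hasDerivAt_pi]
    intro i
    fin_cases i
    · exact h1
    · exact h2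
    · exact h3
  exact ((EuclideanSpace.equiv (Fin 3) ℝ).symm : (Fin 3 → ℝ) →L[ℝ] E3).hasFDerivAt.comp_hasDerivAt
    θ h4

lemma spir_chord {ρ k : ℝ} (hρ : 0 < ρ) (hk : 0 < k) :
    ∀ θ₁ ∈ Icc 0 Real.pi, ∀ θ₂ ∈ Icc 0 Real.pi, θ₁ ≤ θ₂ →
      ‖spir ρ k θ₂ - spir ρ k θ₁‖ ≤ (ρ * θ₂ + ρ * k * (1 - Real.cos θ₂)) -
        (ρ * θ₁ + ρ * k * (1 - Real.cos θ₁)) := by
  intro θ₁ h1 θ₂ h2 h12
  have hd : ∀ x, HasDerivAt (fun θ => spir ρ k θ - spir ρ k θ₁) (spir_d ρ k x) x := fun x =>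
    (spir_deriv ρ k x).sub_const _
  have hB : ∀ x, HasDerivAt (fun θ => (ρ * θ + ρ * k * (1 - Real.cos θ)) -
      (ρ * θ₁ + ρ * k * (1 - Real.cos θ₁))) (ρ + ρ * k * Real.sin x) x := by
    intro x
    apply HasDerivAt.sub_const
    have h3 : HasDerivAt (fun θ : ℝ => ρ * θ) ρ x := by
      simpa using (hasDerivAt_id x).const_mul ρ
    have h4 : HasDerivAt (fun θ : ℝ => ρ * k * (1 - Real.cos θ)) (ρ * k * Real.sin x) x := by
      have h5 := ((Real.hasDerivAt_cos x).const_sub 1).const_mul (ρ * k)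
      rwa [neg_neg] at h5
    exact h3.add h4
  refine image_norm_le_of_norm_deriv_right_le_deriv_boundary (a := θ₁) (b := θ₂)
    (f' := spir_d ρ k) (f := fun θ => spir ρ k θ - spir ρ k θ₁) ?_ ?_ ?_ hB ?_ ⟨h12, le_rfl⟩
  · exact fun x _ => (hd x).continuousAt.continuousWithinAt
  · exact fun x _ => (hd x).hasDerivWithinAt
  · simp
  · intro x hx
    exact spir_d_norm hρ hk (Real.sin_nonneg_of_nonneg_of_le_pi (h1.1.trans hx.1)
      (hx.2.le.trans h2.2))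

lemma spir_angle {ρ : ℝ} (hρ : 0 < ρ) (k θ : ℝ) (y : E3) (hy : ‖y‖ = ρ) (δ : ℝ) (h0 : 0 ≤ δ)
    (h1 : δ ≤ Real.pi)
    (h : ρ * (Real.sin θ * Real.cos (k * θ)) * y 0 + ρ * (Real.sin θ * Real.sin (k * θ)) * y 1 +
      ρ * Real.cos θ * y 2 = ρ ^ 2 * Real.cos δ) :
    InnerProductGeometry.angle (spir ρ k θ) y = δ := by
  unfold InnerProductGeometry.angle
  rw [norm_spir hρ.le, hy]
  have h2 : inner ℝ (spir ρ k θ) y = ρ ^ 2 * Real.cos δ := by
    rw [PiLp.inner_apply, Fin.sum_univ_three, ← h]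
    simp only [spir, PiLp.toLp_apply, Matrix.cons_val_zero, Matrix.cons_val_one, Matrix.cons_val,
      real_inner_eq_re_inner, RCLike.inner_apply, conj_trivial, RCLike.re_to_real]
    ring
  rw [h2, ← sq, mul_div_cancel_left₀ _ (by positivity), Real.arccos_cos h0 h1]

lemma spir_cover {ρ k : ℝ} (hρ : 0 < ρ) (hk : 0 < k) (y : E3) (hy : ‖y‖ = ρ) :
    ∃ θ ∈ Icc 0 Real.pi, InnerProductGeometry.angle (spir ρ k θ) y ≤ Real.pi / k := by
  have hpi := Real.pi_pos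
  have hsq : y 0 ^ 2 + y 1 ^ 2 + y 2 ^ 2 = ρ ^ 2 := by
    have h1 := EuclideanSpace.norm_eq y
    rw [hy, Fin.sum_univ_three] at h1
    rw [h1, Real.sq_sqrt (by positivity)]
    simp only [Real.norm_eq_abs, sq_abs]
  obtain ⟨t, ht⟩ : ∃ t, t = Real.arccos (y 2 / ρ) := ⟨_, rfl⟩
  have ht0 : 0 ≤ t := ht ▸ Real.arccos_nonneg _
  have htpi : t ≤ Real.pi := ht ▸ Real.arccos_le_pi _
  have hy2 : |y 2| ≤ ρ := by
    apply abs_le_of_sq_le_sq _ hρ.le
    nlinarith [sq_nonneg (y 0), sq_nonneg (y 1)]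
  have hcos : ρ * Real.cos t = y 2 := by
    rw [ht, Real.cos_arccos]
    · field_simp
    · rw [le_div_iff₀ hρ]
      have := (abs_le.1 hy2).1
      linarith
    · rw [div_le_iff₀ hρ]
      have := (abs_le.1 hy2).2
      linarith
  have hsin0 : 0 ≤ Real.sin t := Real.sin_nonneg_of_nonneg_of_le_pi ht0 htpi
  obtain ⟨w, hw⟩ : ∃ w : ℂ, w = ⟨y 0, y 1⟩ := ⟨_, rfl⟩
  have hwn : ‖w‖ = ρ * Real.sin t := by
    have h1 : ‖w‖ ^ 2 = (ρ * Real.sin t) ^ 2 := by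
      rw [Complex.sq_norm, Complex.normSq_apply, hw]
      simp only
      have h2 := Real.sin_sq_add_cos_sq t
      have h3 : (ρ * Real.sin t) ^ 2 = ρ ^ 2 - (ρ * Real.cos t) ^ 2 := by
        have h4 : Real.sin t ^ 2 = 1 - Real.cos t ^ 2 := by linarith
        rw [mul_pow, h4]
        ring
      rw [h3, hcos, ← hsq]
      ring
    exact (pow_left_inj₀ (norm_nonneg _) (by positivity) two_ne_zero).1 h1
  have hw0 : y 0 = ρ * Real.sin t * Real.cos w.arg := by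
    rw [← hwn, Complex.norm_mul_cos_arg, hw]
  have hw1 : y 1 = ρ * Real.sin t * Real.sin w.arg := by
    rw [← hwn, Complex.norm_mul_sin_arg, hw]
  obtain ⟨n, hn⟩ : ∃ n : ℤ, n = round ((k * t - w.arg) / (2 * Real.pi)) := ⟨_, rfl⟩
  have hround : |k * t - w.arg - n * (2 * Real.pi)| ≤ Real.pi := by
    have h1 := abs_sub_round ((k * t - w.arg) / (2 * Real.pi))
    rw [← hn] at h1
    have h2 : k * t - w.arg - n * (2 * Real.pi) =
        ((k * t - w.arg) / (2 * Real.pi) - n) * (2 * Real.pi) := by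
      field_simp
    rw [h2, abs_mul, abs_of_pos (by positivity : (0 : ℝ) < 2 * Real.pi)]
    nlinarith
  obtain ⟨θ, hθ⟩ : ∃ θ : ℝ, θ = (w.arg + n * (2 * Real.pi)) / k := ⟨_, rfl⟩
  have hkθ : k * θ = w.arg + n * (2 * Real.pi) := by
    rw [hθ]
    field_simp
  have hdist : |θ - t| ≤ Real.pi / k := by
    have h0 : |θ - t| * k = |(θ - t) * k| := by rw [abs_mul, abs_of_pos hk]
    rw [le_div_iff₀ hk, h0]
    have h1 : (θ - t) * k = -(k * t - w.arg - n * (2 * Real.pi)) := by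
      linear_combination hkθ
    rw [h1, abs_neg]
    exact hround
  rcases lt_or_ge θ 0 with h | h
  · refine ⟨0, ⟨le_rfl, hpi.le⟩, ?_⟩
    rw [spir_angle hρ k 0 y hy t ht0 htpi (by
      rw [Real.sin_zero, Real.cos_zero]
      linear_combination (-ρ) * hcos)]
    have h1 := neg_abs_le (θ - t)
    linarith
  rcases lt_or_ge Real.pi θ with h' | h'
  · refine ⟨Real.pi, ⟨hpi.le, le_rfl⟩, ?_⟩
    rw [spir_angle hρ k Real.pi y hy (Real.pi - t) (by linarith) (by linarith) (by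
      rw [Real.sin_pi, Real.cos_pi, Real.cos_pi_sub]
      linear_combination ρ * hcos)]
    have h1 := le_abs_self (θ - t)
    linarith
  · refine ⟨θ, ⟨h, h'⟩, ?_⟩
    rw [spir_angle hρ k θ y hy |θ - t| (abs_nonneg _) (by
        rw [abs_le]
        constructor <;> linarith) (by
      rw [Real.cos_abs, Real.cos_sub, hkθ, Real.cos_add_int_mul_two_pi,
        Real.sin_add_int_mul_two_pi, hw0, hw1, ← hcos]
      have h2 := Real.sin_sq_add_cos_sq w.arg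
      linear_combination (ρ ^ 2 * Real.sin θ * Real.sin t) * h2)]
    exact hdist

end Pool.Agent.Helper865.Astro
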