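import Pool.Agent.Helper865.Astro.G2

set_option autoImplicit false

open MeasureTheory Set Filter Topology
open scoped NNReal ENNReal

namespace Pool.Agent.Helper865.Astro




lemma tour_pole
    (hgd : ∀ {ρ : ℝ}, 0 < ρ → ∀ {a b : ℝ} (σ : ℝ → E3), (∀ v ∈ Icc a b, ‖σ v‖ = ρ) →
      (∀ v ∈ Icc a b, ∀ w ∈ Icc a b, ‖σ v - σ w‖ ≤ |v - w|) →
      ∀ v ∈ Icc a b, ∀ w ∈ Icc a b, gd ρ (σ v) (σ w) ≤ |v - w|)
    (hnorm : ∀ {ρ : ℝ}, 0 ≤ ρ → ∀ (k θ : ℝ), ‖spir ρ k θ‖ = ρ)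
    (hchord : ∀ {ρ k : ℝ}, 0 < ρ → 0 < k →
      ∀ θ₁ ∈ Icc 0 Real.pi, ∀ θ₂ ∈ Icc 0 Real.pi, θ₁ ≤ θ₂ →
      ‖spir ρ k θ₂ - spir ρ k θ₁‖ ≤ (ρ * θ₂ + ρ * k * (1 - Real.cos θ₂)) -
        (ρ * θ₁ + ρ * k * (1 - Real.cos θ₁)))
    (hcover : ∀ {ρ k : ℝ}, 0 < ρ → 0 < k → ∀ y : E3, ‖y‖ = ρ →
      ∃ θ ∈ Icc 0 Real.pi, InnerProductGeometry.angle (spir ρ k θ) y ≤ Real.pi / k)
    {ρ r : ℝ} (hρ : 0 < ρ) (hr : 0 < r) :
    ∃ σ : ℝ → E3, σ 0 = !₂[0, 0, ρ] ∧ (∀ v, ‖σ v‖ = ρ) ∧ (∀ v w, gd ρ (σ v) (σ w) ≤ |v - w|) ∧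
      ∀ y : E3, ‖y‖ = ρ →
        ∃ v ∈ Icc 0 (2 * Real.pi * ρ ^ 2 / r + Real.pi * ρ), gd ρ (σ v) y ≤ r := by
  have hpi := Real.pi_pos
  set k : ℝ := Real.pi * ρ / r with hk
  have hk0 : 0 < k := by positivity
  set V : ℝ → ℝ := fun θ => ρ * θ + ρ * k * (1 - Real.cos θ) with hV
  set L : ℝ := 2 * Real.pi * ρ ^ 2 / r + Real.pi * ρ with hL
  have hL0 : 0 < L := by positivity
  have hV0 : V 0 = 0 := by simp [hV]
  have hVpi : V Real.pi = L := by
    simp only [hV, hL, hk, Real.cos_pi]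
    field_simp
    ring
  have hVc : Continuous V := by
    simp only [hV]
    fun_prop
  have hVmono : ∀ θ₁ ∈ Icc 0 Real.pi, ∀ θ₂ ∈ Icc 0 Real.pi, θ₁ < θ₂ → V θ₁ < V θ₂ := by
    intro a ha b hb hab
    have h1 : Real.cos b ≤ Real.cos a := Real.cos_le_cos_of_nonneg_of_le_pi ha.1 hb.2 hab.le
    have h2 : ρ * a < ρ * b := mul_lt_mul_of_pos_left hab hρ
    have h3 : ρ * k * (1 - Real.cos a) ≤ ρ * k * (1 - Real.cos b) :=
      mul_le_mul_of_nonneg_left (by linarith) (by positivity)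
    simp only [hV]
    linarith
  have hex : ∀ u : ℝ, ∃ θ : ℝ, θ ∈ Icc 0 Real.pi ∧ (u ∈ Icc 0 L → V θ = u) := by
    intro u
    by_cases hu : u ∈ Icc 0 L
    · have := intermediate_value_Icc hpi.le hVc.continuousOn
      rw [hV0, hVpi] at this
      obtain ⟨θ, hθ, h⟩ := this hu
      exact ⟨θ, hθ, fun _ => h⟩
    · exact ⟨0, ⟨le_refl _, hpi.le⟩, fun h => absurd h hu⟩
  choose th hth hthV using hex
  have hinj : ∀ a ∈ Icc 0 Real.pi, ∀ b ∈ Icc 0 Real.pi, V a = V b → a = b := by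
    intro a ha b hb hab
    rcases lt_trichotomy a b with h | h | h
    · exact absurd hab (hVmono a ha b hb h).ne
    · exact h
    · exact absurd hab (hVmono b hb a ha h).ne'
  have hmon : ∀ v ∈ Icc 0 L, ∀ w ∈ Icc 0 L, v ≤ w → th v ≤ th w := by
    intro v hv w hw hvw
    by_contra hcon
    push Not at hcon
    have := hVmono _ (hth w) _ (hth v) hcon
    rw [hthV w hw, hthV v hv] at this
    linarith
  have hlip0 : ∀ v ∈ Icc 0 L, ∀ w ∈ Icc 0 L, v ≤ w →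
      ‖spir ρ k (th w) - spir ρ k (th v)‖ ≤ w - v := by
    intro v hv w hw hvw
    have h := hchord hρ hk0 (th v) (hth v) (th w) (hth w) (hmon v hv w hw hvw)
    have e1 : ρ * th w + ρ * k * (1 - Real.cos (th w)) = w := hthV w hw
    have e2 : ρ * th v + ρ * k * (1 - Real.cos (th v)) = v := hthV v hv
    rw [e1, e2] at h
    exact h
  have hlip : ∀ v ∈ Icc 0 L, ∀ w ∈ Icc 0 L,
      ‖spir ρ k (th v) - spir ρ k (th w)‖ ≤ |v - w| := by
    intro v hv w hw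
    rcases le_total v w with h | h
    · rw [norm_sub_rev, abs_sub_comm, abs_of_nonneg (by linarith)]
      exact hlip0 v hv w hw h
    · rw [abs_of_nonneg (by linarith)]
      exact hlip0 w hw v hv h
  have hgd' := hgd hρ (a := 0) (b := L) (fun u => spir ρ k (th u))
    (fun v _ => hnorm hρ.le k (th v)) hlip
  have hcl : ∀ v : ℝ, max 0 (min v L) ∈ Icc 0 L := fun v =>
    ⟨le_max_left _ _, max_le hL0.le (min_le_right _ _)⟩
  have hclid : ∀ v ∈ Icc 0 L, max 0 (min v L) = v := by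
    intro v hv
    rw [min_eq_left hv.2, max_eq_right hv.1]
  have hcl1 : ∀ v w : ℝ, |max 0 (min v L) - max 0 (min w L)| ≤ |v - w| := by
    intro v w
    calc |max 0 (min v L) - max 0 (min w L)| ≤ |min v L - min w L| := by
          have := abs_max_sub_max_le_abs (min v L) (min w L) 0
          rwa [max_comm (min v L) 0, max_comm (min w L) 0] at this
      _ ≤ |v - w| := by
          have := abs_min_sub_min_le_max v L w L
          rw [sub_self, abs_zero, max_eq_left (abs_nonneg _)] at this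
          exact this
  refine ⟨fun v => spir ρ k (th (max 0 (min v L))), ?_, fun v => hnorm hρ.le k _, ?_, ?_⟩
  · have h0 : max 0 (min (0:ℝ) L) = 0 := hclid 0 ⟨le_refl _, hL0.le⟩
    have h1 : th 0 = 0 := by
      apply hinj _ (hth 0) _ ⟨le_refl _, hpi.le⟩
      rw [hthV 0 ⟨le_refl _, hL0.le⟩, hV0]
    simp only [h0, h1]
    simp [spir]
  · intro v w
    exact (hgd' _ (hcl v) _ (hcl w)).trans (hcl1 v w)
  · intro y hy
    obtain ⟨θ, hθ, hang⟩ := hcover hρ hk0 y hy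
    have hVm : V θ ∈ Icc 0 L := by
      constructor
      · rcases hθ.1.lt_or_eq with h | h
        · have := hVmono 0 ⟨le_refl _, hpi.le⟩ θ hθ h
          rw [hV0] at this
          exact this.le
        · rw [← h, hV0]
      · rcases hθ.2.lt_or_eq with h | h
        · have := hVmono θ hθ Real.pi ⟨hpi.le, le_refl _⟩ h
          rw [hVpi] at this
          exact this.le
        · rw [h, hVpi]
    refine ⟨V θ, hVm, ?_⟩
    have h1 : th (V θ) = θ := hinj _ (hth _) _ hθ (hthV _ hVm)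
    simp only [hclid _ hVm, h1, gd]
    calc ρ * InnerProductGeometry.angle (spir ρ k θ) y ≤ ρ * (Real.pi / k) :=
          mul_le_mul_of_nonneg_left hang hρ.le
      _ = r := by
          rw [hk]
          field_simp

end Pool.Agent.Helper865.Astro
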