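import Pool.Agent.Helper865.Astro.Defs

set_option autoImplicit false

open MeasureTheory Set Filter Topology
open scoped NNReal ENNReal

namespace Pool.Agent.Helper865.Astro


/-- clamping to `[0, L]` -/
noncomputable def clp (L t : ℝ) : ℝ := min L (max 0 t)

/-- partial sums of the active times -/
noncomputable def SN (L : ℝ) (N : ℕ) (ω : ℕ → Bool) (t : ℝ) : ℝ :=
  ∑ j ∈ Finset.range N, if ω j = true then clp L (t - j * L) else 0

/-- total active time up to `t` -/
noncomputable def SS (L : ℝ) (ω : ℕ → Bool) (t : ℝ) : ℝ := SN L (⌊t / L⌋₊ + 1) ω t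

/-- the triangle wave -/
noncomputable def tri (L s : ℝ) : ℝ := 2 * L * |s / (2 * L) - round (s / (2 * L))|

lemma clp_nonpos {L : ℝ} (hL : 0 < L) {t : ℝ} (ht : t ≤ 0) : clp L t = 0 := by
  unfold clp; rw [max_eq_left ht, min_eq_right hL.le]

lemma clp_big {L : ℝ} {t : ℝ} (hL : 0 < L) (ht : L ≤ t) : clp L t = L := by
  unfold clp; rw [max_eq_right (by linarith), min_eq_left ht]

lemma clp_mid {L : ℝ} {t : ℝ} (h0 : 0 ≤ t) (ht : t ≤ L) : clp L t = t := by
  unfold clp; rw [max_eq_right h0, min_eq_right ht]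

lemma clp_mono {L : ℝ} {s t : ℝ} (h : s ≤ t) : clp L s ≤ clp L t := by
  unfold clp; exact min_le_min le_rfl (max_le_max le_rfl h)

lemma SN_stab {L : ℝ} (hL : 0 < L) (N M : ℕ) (h : N ≤ M) (ω : ℕ → Bool) (t : ℝ)
    (ht : t ≤ N * L) : SN L M ω t = SN L N ω t := by
  induction M, h using Nat.le_induction with
  | base => rfl
  | succ M hM ih =>
    unfold SN at *
    rw [Finset.sum_range_succ, ih]
    have : t - M * L ≤ 0 := by
      have : (N : ℝ) * L ≤ M * L := by
        apply mul_le_mul_of_nonneg_right _ hL.le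
        exact_mod_cast hM
      linarith
    rw [clp_nonpos hL this]
    simp

lemma SS_eq {L : ℝ} (hL : 0 < L) (N : ℕ) (ω : ℕ → Bool) (t : ℝ)
    (ht : t ≤ N * L) : SS L ω t = SN L N ω t := by
  unfold SS
  have h1 : t ≤ ((⌊t / L⌋₊ + 1 : ℕ) : ℝ) * L := by
    have := (Nat.lt_floor_add_one (t / L)).le
    rw [div_le_iff₀ hL] at this
    push_cast
    exact this
  rw [← SN_stab hL _ _ (le_max_left (⌊t / L⌋₊ + 1) N) ω t h1,
    ← SN_stab hL _ _ (le_max_right (⌊t / L⌋₊ + 1) N) ω t ht]

lemma sum_clp {L : ℝ} (hL : 0 < L) (N : ℕ) (t : ℝ) (h0 : 0 ≤ t) :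
    ∑ j ∈ Finset.range N, clp L (t - j * L) = min t (N * L) := by
  induction N with
  | zero => simp [h0]
  | succ N ih =>
    rw [Finset.sum_range_succ, ih]
    push_cast
    rcases le_total t (N * L) with h | h
    · rw [min_eq_left h, min_eq_left (by nlinarith), clp_nonpos hL (by linarith)]
      ring
    · rcases le_total t ((N + 1) * L) with h' | h'
      · rw [min_eq_right h, min_eq_left h', clp_mid (by linarith) (by linarith)]
        ring
      · rw [min_eq_right h, min_eq_right h', clp_big hL (by linarith)]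
        ring

lemma SS_lip {L : ℝ} (hL : 0 < L) (ω : ℕ → Bool) (s t : ℝ) (h0 : 0 ≤ s) (hst : s ≤ t) :
    0 ≤ SS L ω t - SS L ω s ∧ SS L ω t - SS L ω s ≤ t - s := by
  obtain ⟨N, hN⟩ := exists_nat_ge (t / L)
  have ht : t ≤ N * L := by rwa [div_le_iff₀ hL] at hN
  have hs : s ≤ N * L := hst.trans ht
  rw [SS_eq hL N ω t ht, SS_eq hL N ω s hs]
  have e1 := sum_clp hL N t (h0.trans hst)
  have e2 := sum_clp hL N s h0
  rw [min_eq_left ht] at e1
  rw [min_eq_left hs] at e2
  unfold SN
  rw [← Finset.sum_sub_distrib]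
  constructor
  · apply Finset.sum_nonneg
    intro j _
    have := clp_mono (L := L) (s := s - j * L) (t := t - j * L) (by linarith)
    split_ifs <;> linarith
  · have e3 : t - s = ∑ j ∈ Finset.range N, (clp L (t - j * L) - clp L (s - j * L)) := by
      rw [Finset.sum_sub_distrib, e1, e2]
    rw [e3]
    apply Finset.sum_le_sum
    intro j _
    have := clp_mono (L := L) (s := s - j * L) (t := t - j * L) (by linarith)
    split_ifs <;> linarith

lemma SS_round {L : ℝ} (hL : 0 < L) (ω : ℕ → Bool) (k : ℕ) (t : ℝ)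
    (h1 : (k : ℝ) * L ≤ t) (h2 : t ≤ ((k : ℝ) + 1) * L) :
    SS L ω t = ((∑ j ∈ Finset.range k, if ω j = true then 1 else 0 : ℕ) : ℝ) * L +
      if ω k = true then t - k * L else 0 := by
  rw [SS_eq hL (k + 1) ω t (by push_cast; exact h2)]
  unfold SN
  rw [Finset.sum_range_succ]
  rw [clp_mid (by linarith) (by linarith)]
  congr 1
  push_cast
  rw [Finset.sum_mul]
  apply Finset.sum_congr rfl
  intro j hj
  rw [Finset.mem_range] at hj
  have hj' : (j : ℝ) + 1 ≤ k := by exact_mod_cast hj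
  have : ((j : ℝ) + 1) * L ≤ k * L := mul_le_mul_of_nonneg_right hj' hL.le
  rw [clp_big hL (by linarith)]
  split_ifs <;> simp

lemma tri_lip {L : ℝ} (hL : 0 < L) (s t : ℝ) : |tri L s - tri L t| ≤ |s - t| := by
  have key : ∀ x y : ℝ, |x - round x| ≤ |x - y| + |y - round y| := by
    intro x y
    calc |x - round x| ≤ |x - round y| := round_le x (round y)
      _ = |(x - y) + (y - round y)| := by ring_nf
      _ ≤ _ := abs_add_le _ _
  unfold tri
  set x := s / (2 * L) with hx
  set y := t / (2 * L) with hy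
  have e : |s - t| = 2 * L * |x - y| := by
    have h2 : s - t = 2 * L * (x - y) := by rw [hx, hy]; field_simp
    rw [h2, abs_mul, abs_of_pos (by linarith : (0 : ℝ) < 2 * L)]
  rw [e, ← mul_sub, abs_mul, abs_of_pos (by linarith : (0 : ℝ) < 2 * L)]
  apply mul_le_mul_of_nonneg_left _ (by linarith)
  rw [abs_le]
  have k1 := key x y
  have k2 := key y x
  rw [abs_sub_comm y x] at k2
  constructor <;> linarith

lemma tri_mem {L : ℝ} (hL : 0 < L) (s : ℝ) : tri L s ∈ Icc 0 L := by
  unfold tri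
  have h := abs_sub_round (s / (2 * L))
  constructor
  · positivity
  · nlinarith

lemma tri_even {L : ℝ} (hL : 0 < L) (m : ℕ) (hm : Even m) : tri L (m * L) = 0 := by
  obtain ⟨a, rfl⟩ := hm
  unfold tri
  have : ((a + a : ℕ) : ℝ) * L / (2 * L) = ((a : ℤ) : ℝ) := by
    push_cast; field_simp; ring
  rw [this, round_intCast]
  simp

lemma tri_odd {L : ℝ} (hL : 0 < L) (m : ℕ) (hm : Odd m) : tri L (m * L) = L := by
  obtain ⟨a, rfl⟩ := hm
  unfold tri
  have : ((2 * a + 1 : ℕ) : ℝ) * L / (2 * L) = (2⁻¹ : ℝ) + ((a : ℤ) : ℝ) := by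
    push_cast; field_simp; ring
  rw [this, round_add_intCast, round_two_inv]
  push_cast
  have h : (2⁻¹ : ℝ) + a - (1 + a) = - (2⁻¹) := by ring
  rw [h, abs_neg, abs_of_pos (by norm_num)]
  ring

/-- a schedule: in round `k` (the time interval `[k L, (k+1) L]`) the position parameter stays
constant if `ω k = false` and sweeps all of `[0, L]` if `ω k = true`. -/
lemma schedule {L : ℝ} (hL : 0 < L) :
    ∃ f : (ℕ → Bool) → ℝ → ℝ,
      (∀ ω, f ω 0 = 0) ∧
      (∀ ω, ∀ s ∈ Ici (0 : ℝ), ∀ t ∈ Ici (0 : ℝ), |f ω s - f ω t| ≤ |s - t|) ∧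
      (∀ ω, ∀ t ∈ Ici (0 : ℝ), f ω t ∈ Icc 0 L) ∧
      (∀ t ∈ Ici (0 : ℝ), Continuous fun ω => f ω t) ∧
      (∀ ω, ∀ k : ℕ, ω k = true → ∀ v ∈ Icc 0 L,
        ∃ t ∈ Icc ((k : ℝ) * L) (((k : ℝ) + 1) * L), f ω t = v) ∧
      (∀ ω, ∀ k : ℕ, ω k = false → ∀ t ∈ Icc ((k : ℝ) * L) (((k : ℝ) + 1) * L),
        f ω t = f ω ((k : ℝ) * L)) := by
  have hlip : ∀ ω, ∀ s ∈ Ici (0 : ℝ), ∀ t ∈ Ici (0 : ℝ),
      |tri L (SS L ω s) - tri L (SS L ω t)| ≤ |s - t| := by
    intro ω s hs t ht
    refine (tri_lip hL _ _).trans ?_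
    rcases le_total s t with h | h
    · obtain ⟨h1, h2⟩ := SS_lip hL ω s t hs h
      rw [abs_sub_comm, abs_of_nonneg h1, abs_sub_comm, abs_of_nonneg (by linarith)]
      exact h2
    · obtain ⟨h1, h2⟩ := SS_lip hL ω t s ht h
      rw [abs_of_nonneg h1, abs_of_nonneg (by linarith)]
      exact h2
  refine ⟨fun ω t => tri L (SS L ω t), ?_, hlip, ?_, ?_, ?_, ?_⟩
  · intro ω
    have h := SS_round hL ω 0 0 (by simp) (by simpa using hL.le)
    simp only [h]
    have := tri_even hL 0 (by simp)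
    simpa using this
  · intro ω t _
    exact tri_mem hL _
  · intro t _
    have hc : Continuous (tri L) := by
      have : LipschitzWith 1 (tri L) := by
        apply LipschitzWith.of_dist_le_mul
        intro s t
        rw [Real.dist_eq, Real.dist_eq]
        simpa using tri_lip hL s t
      exact this.continuous
    refine hc.comp ?_
    unfold SS SN
    refine continuous_finsetSum _ fun j _ => ?_
    have h2 : Continuous (fun b : Bool => if b = true then clp L (t - j * L) else 0) :=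
      continuous_of_discreteTopology
    exact h2.comp (continuous_apply j)
  · intro ω k hk v hv
    have hk0 : (0 : ℝ) ≤ k * L := by positivity
    have hle : (k : ℝ) * L ≤ ((k : ℝ) + 1) * L := by nlinarith
    have e1 := SS_round hL ω k (k * L) le_rfl hle
    have e2 := SS_round hL ω k (((k : ℝ) + 1) * L) hle le_rfl
    rw [if_pos hk] at e1 e2
    set m : ℕ := ∑ j ∈ Finset.range k, if ω j = true then 1 else 0 with hm
    have hcont : ContinuousOn (fun t => tri L (SS L ω t)) (Icc ((k : ℝ) * L) (((k : ℝ) + 1) * L)) := by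
      have : LipschitzOnWith 1 (fun t => tri L (SS L ω t))
          (Icc ((k : ℝ) * L) (((k : ℝ) + 1) * L)) := by
        apply LipschitzOnWith.of_dist_le_mul
        intro s hs t ht
        rw [Real.dist_eq, Real.dist_eq]
        simpa using hlip ω s (hk0.trans hs.1) t (hk0.trans ht.1)
      exact this.continuousOn
    rw [← uIcc_of_le hle] at hcont ⊢
    have hI := intermediate_value_uIcc hcont
    have hv' : v ∈ uIcc (tri L (SS L ω (k * L))) (tri L (SS L ω (((k : ℝ) + 1) * L))) := by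
      rw [e1, e2]
      have a1 : (m : ℝ) * L + (k * L - k * L) = m * L := by ring
      have a2 : (m : ℝ) * L + (((k : ℝ) + 1) * L - k * L) = ((m + 1 : ℕ) : ℝ) * L := by
        push_cast; ring
      rw [a1, a2]
      rcases Nat.even_or_odd m with h | h
      · rw [tri_even hL m h, tri_odd hL (m + 1) h.add_one, uIcc_of_le hL.le]
        exact hv
      · rw [tri_odd hL m h, tri_even hL (m + 1) h.add_one, uIcc_of_ge hL.le]
        exact hv
    obtain ⟨t, ht, htv⟩ := hI hv'
    exact ⟨t, ht, htv⟩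
  · intro ω k hk t ht
    have hle : (k : ℝ) * L ≤ ((k : ℝ) + 1) * L := by nlinarith
    have e1 := SS_round hL ω k t ht.1 ht.2
    have e2 := SS_round hL ω k (k * L) le_rfl hle
    simp only [hk] at e1 e2
    simp only [e1, e2]
    simp

end Pool.Agent.Helper865.Astro
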