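import Pool.Agent.Helper865.Astro.Defs

set_option autoImplicit false

open MeasureTheory Set Filter Topology
open scoped NNReal ENNReal

namespace Pool.Agent.Helper865.Astro


/-- the strategy built from a tour `σ`, a schedule `f` and the coin measure `β` -/
lemma route_map {ρ : ℝ} {N : E3} (σ : ℝ → E3) (h0 : σ 0 = N)
    (hn : ∀ v, ‖σ v‖ = ρ) (hρ : 0 < ρ) (hl : ∀ v w, gd ρ (σ v) (σ w) ≤ |v - w|)
    (f : (ℕ → Bool) → ℝ → ℝ) (f0 : ∀ ω, f ω 0 = 0)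
    (fl : ∀ ω, ∀ s ∈ Ici (0 : ℝ), ∀ t ∈ Ici (0 : ℝ), |f ω s - f ω t| ≤ |s - t|)
    (fc : ∀ t ∈ Ici (0 : ℝ), Continuous fun ω => f ω t) :
    ∃ Ψ : (ℕ → Bool) → Route ρ N, Measurable Ψ ∧
      ∀ ω (t : ℝ≥0), (Ψ ω).1 t = σ (f ω t) := by
  have hchord : ∀ x y : E3, ‖x‖ = ρ → ‖y‖ = ρ → ‖x - y‖ ≤ gd ρ x y := by
    intro x y hx hy
    unfold gd
    have h1 : ‖x - y‖ ^ 2 = ‖x‖ ^ 2 - 2 * inner ℝ x y + ‖y‖ ^ 2 := norm_sub_sq_real x y
    have h2 := InnerProductGeometry.cos_angle_mul_norm_mul_norm x y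
    rw [← h2, hx, hy] at h1
    have h3 := Real.one_sub_sq_div_two_le_cos (x := InnerProductGeometry.angle x y)
    have h4 : 0 ≤ InnerProductGeometry.angle x y := InnerProductGeometry.angle_nonneg x y
    have h5 : ‖x - y‖ ^ 2 ≤ (ρ * InnerProductGeometry.angle x y) ^ 2 := by
      rw [h1]
      have h6 : 0 < ρ * ρ := mul_pos hρ hρ
      nlinarith [mul_le_mul_of_nonneg_left h3 h6.le]
    exact le_of_sq_le_sq h5 (mul_nonneg hρ.le h4)
  have hσL : LipschitzWith 1 σ := by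
    apply LipschitzWith.of_dist_le_mul
    intro v w
    rw [dist_eq_norm, NNReal.coe_one, one_mul, Real.dist_eq]
    exact (hchord _ _ (hn v) (hn w)).trans (hl v w)
  have hfc : Continuous fun p : (ℕ → Bool) × ℝ≥0 => f p.1 p.2 := by
    refine continuous_prod_of_continuous_lipschitzWith' (fun p : (ℕ → Bool) × ℝ≥0 => f p.1 p.2) 1 ?_ ?_
    · intro a
      apply LipschitzWith.of_dist_le_mul
      intro s t
      rw [NNReal.coe_one, one_mul, Real.dist_eq, NNReal.dist_eq]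
      exact fl a s s.2 t t.2
    · intro t
      exact fc t t.2
  have hFc : Continuous fun p : (ℕ → Bool) × ℝ≥0 => σ (f p.1 p.2) := hσL.continuous.comp hfc
  set Ψ0 : (ℕ → Bool) → C(ℝ≥0, E3) := fun ω =>
    ⟨fun t => σ (f ω t), hFc.comp (Continuous.prodMk_right ω)⟩ with hΨ0
  have hΨ0c : Continuous Ψ0 := ContinuousMap.continuous_of_continuous_uncurry Ψ0 hFc
  have hmem : ∀ ω, Ψ0 ω 0 = N ∧ (∀ t, ‖Ψ0 ω t‖ = ρ) ∧
      ∀ s t : ℝ≥0, gd ρ (Ψ0 ω s) (Ψ0 ω t) ≤ |(s : ℝ) - (t : ℝ)| := by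
    intro ω
    refine ⟨?_, fun t => hn _, fun s t => ?_⟩
    · show σ (f ω ((0 : ℝ≥0) : ℝ)) = N
      rw [NNReal.coe_zero, f0, h0]
    · exact (hl _ _).trans (fl ω s s.2 t t.2)
  let Ψ : (ℕ → Bool) → Route ρ N := fun ω => ⟨Ψ0 ω, hmem ω⟩
  have hc : Continuous Ψ := hΨ0c.subtype_mk hmem
  exact ⟨Ψ, hc.measurable, fun ω t => rfl⟩

end Pool.Agent.Helper865.Astro
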