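import Pool.Agent.Helper865.Astro.Defs

set_option autoImplicit false

open MeasureTheory Set Filter Topology
open scoped NNReal ENNReal

namespace Pool.Agent.Helper865.Astro


lemma upper_bound_meas : Measurable (fun p : (ℕ → Bool) × (ℕ → Bool) =>
    (⨅ (k : ℕ) (_ : p.1 k ≠ p.2 k), ((k : ℝ≥0∞) + 1))) := by
  refine Measurable.iInf fun k => ?_
  have e : (fun p : (ℕ → Bool) × (ℕ → Bool) => (⨅ (_ : p.1 k ≠ p.2 k), ((k : ℝ≥0∞) + 1))) =
      fun p => if p.1 k = p.2 k then ⊤ else ((k : ℝ≥0∞) + 1) := by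
    funext p
    by_cases h : p.1 k = p.2 k
    · simp [h]
    · simp [h]
  rw [e]
  refine Measurable.ite ?_ measurable_const measurable_const
  exact measurableSet_eq_fun ((measurable_pi_apply k).comp measurable_fst)
    ((measurable_pi_apply k).comp measurable_snd)

lemma upper_bound_core
    (hmul : ∀ (g h : O3) (x : E3), act (g * h) x = act g (act h x))
    (hone : ∀ x : E3, act 1 x = x)
    (hangle : ∀ (g : O3) (x y : E3),
      InnerProductGeometry.angle (act g x) (act g y) = InnerProductGeometry.angle x y)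
    (hnorm : ∀ (g : O3) (x : E3), ‖act g x‖ = ‖x‖)
    {ρ r L : ℝ} (hL : 0 < L)
    (σ : ℝ → E3) (hn : ∀ v, ‖σ v‖ = ρ)
    (hcov : ∀ y : E3, ‖y‖ = ρ → ∃ v ∈ Icc 0 L, gd ρ (σ v) y ≤ r)
    (f : (ℕ → Bool) → ℝ → ℝ)
    (ft : ∀ ω, ∀ k : ℕ, ω k = true → ∀ v ∈ Icc 0 L,
        ∃ t ∈ Icc ((k : ℝ) * L) (((k : ℝ) + 1) * L), f ω t = v)
    (ff : ∀ ω, ∀ k : ℕ, ω k = false → ∀ t ∈ Icc ((k : ℝ) * L) (((k : ℝ) + 1) * L),
        f ω t = f ω ((k : ℝ) * L)) (ω ω' : ℕ → Bool) (k : ℕ) (h : ω k = true) (h' : ω' k = false)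
    (g₁ g₂ : O3) : ∃ t : ℝ≥0, (t : ℝ) ≤ ((k : ℝ) + 1) * L ∧
      gd ρ (act g₁ (σ (f ω t))) (act g₂ (σ (f ω' t))) ≤ r := by
  obtain ⟨v, hv, hvr⟩ := hcov (act g₁⁻¹ (act g₂ (σ (f ω' ((k : ℝ) * L)))))
    (by rw [hnorm, hnorm, hn])
  obtain ⟨t, ht, hft⟩ := ft ω k h v hv
  have ht0 : 0 ≤ t := le_trans (by positivity) ht.1
  refine ⟨⟨t, ht0⟩, ht.2, ?_⟩
  show gd ρ (act g₁ (σ (f ω t))) (act g₂ (σ (f ω' t))) ≤ r
  rw [ff ω' k h' t ht, hft]
  have e : act g₂ (σ (f ω' ((k : ℝ) * L))) =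
      act g₁ (act g₁⁻¹ (act g₂ (σ (f ω' ((k : ℝ) * L))))) := by
    rw [← hmul, mul_inv_cancel, hone]
  rw [e]
  unfold gd at hvr ⊢
  rw [hangle]
  exact hvr

lemma upper_bound
    (hmul : ∀ (g h : O3) (x : E3), act (g * h) x = act g (act h x))
    (hone : ∀ x : E3, act 1 x = x)
    (hangle : ∀ (g : O3) (x y : E3),
      InnerProductGeometry.angle (act g x) (act g y) = InnerProductGeometry.angle x y)
    (hnorm : ∀ (g : O3) (x : E3), ‖act g x‖ = ‖x‖)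
    (hcomm : ∀ (ρ : ℝ) (x y : E3), gd ρ x y = gd ρ y x)
    (ν : Measure O3) [IsProbabilityMeasure ν]
    {ρ r L : ℝ} (hρ : 0 < ρ) (hr : 0 < r) (hL : 0 < L) {N : E3}
    (σ : ℝ → E3) (hn : ∀ v, ‖σ v‖ = ρ)
    (hcov : ∀ y : E3, ‖y‖ = ρ → ∃ v ∈ Icc 0 L, gd ρ (σ v) y ≤ r)
    (f : (ℕ → Bool) → ℝ → ℝ)
    (ft : ∀ ω, ∀ k : ℕ, ω k = true → ∀ v ∈ Icc 0 L,
        ∃ t ∈ Icc ((k : ℝ) * L) (((k : ℝ) + 1) * L), f ω t = v)
    (ff : ∀ ω, ∀ k : ℕ, ω k = false → ∀ t ∈ Icc ((k : ℝ) * L) (((k : ℝ) + 1) * L),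
        f ω t = f ω ((k : ℝ) * L))
    (Ψ : (ℕ → Bool) → Route ρ N) (hΨ : Measurable Ψ) (hΨ2 : ∀ ω (t : ℝ≥0), (Ψ ω).1 t = σ (f ω t))
    (β : Measure (ℕ → Bool)) [IsProbabilityMeasure β]
    (hβ : ∫⁻ p : (ℕ → Bool) × (ℕ → Bool), (⨅ (k : ℕ) (_ : p.1 k ≠ p.2 k), ((k : ℝ≥0∞) + 1))
      ∂(β.prod β) ≤ 2) :
    expMeet ν ρ r N (β.map Ψ) ≤ ENNReal.ofReal (2 * L) := by
  have hL0 : ENNReal.ofReal L ≠ 0 := by
    rw [Ne, ENNReal.ofReal_eq_zero]
    exact not_le.2 hL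
  have hLt : ENNReal.ofReal L ≠ ⊤ := ENNReal.ofReal_ne_top
  -- pointwise
  have hpt : ∀ (ω ω' : ℕ → Bool) (g₁ g₂ : O3), meet ρ r (Ψ ω).1 (Ψ ω').1 g₁ g₂ ≤
      (⨅ (k : ℕ) (_ : ω k ≠ ω' k), ((k : ℝ≥0∞) + 1)) * ENNReal.ofReal L := by
    intro ω ω' g₁ g₂
    rw [← ENNReal.div_le_iff_le_mul (Or.inl hL0) (Or.inl hLt)]
    refine le_iInf₂ fun k hk => ?_
    rw [ENNReal.div_le_iff_le_mul (Or.inl hL0) (Or.inl hLt)]
    have hex : ∃ t : ℝ≥0, (t : ℝ) ≤ ((k : ℝ) + 1) * L ∧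
        gd ρ (act g₁ (σ (f ω t))) (act g₂ (σ (f ω' t))) ≤ r := by
      cases hb : ω k with
      | true =>
        have hb' : ω' k = false := by
          cases hc : ω' k with
          | true => exact absurd (by rw [hb, hc]) hk
          | false => rfl
        exact upper_bound_core hmul hone hangle hnorm hL σ hn hcov f ft ff ω ω' k hb hb' g₁ g₂
      | false =>
        have hb' : ω' k = true := by
          cases hc : ω' k with
          | true => rfl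
          | false => exact absurd (by rw [hb, hc]) hk
        obtain ⟨t, h1, h2⟩ :=
          upper_bound_core hmul hone hangle hnorm hL σ hn hcov f ft ff ω' ω k hb' hb g₂ g₁
        exact ⟨t, h1, by rw [hcomm]; exact h2⟩
    obtain ⟨t, h1, h2⟩ := hex
    have h3 : meet ρ r (Ψ ω).1 (Ψ ω').1 g₁ g₂ ≤ (t : ℝ≥0∞) := by
      refine iInf₂_le t ?_
      rw [hΨ2, hΨ2]
      exact h2
    refine h3.trans ?_
    have h4 : (t : ℝ≥0∞) = ENNReal.ofReal (t : ℝ) := (ENNReal.ofReal_coe_nnreal).symm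
    have h5 : ((k : ℝ≥0∞) + 1) * ENNReal.ofReal L = ENNReal.ofReal (((k : ℝ) + 1) * L) := by
      rw [ENNReal.ofReal_mul (by positivity), ENNReal.ofReal_add (by positivity) zero_le_one,
        ENNReal.ofReal_natCast, ENNReal.ofReal_one]
    rw [h4, h5]
    exact ENNReal.ofReal_le_ofReal h1
  have hm : ((β.map Ψ).prod (β.map Ψ)).prod (ν.prod ν) =
      ((β.prod β).prod (ν.prod ν)).map (Prod.map (Prod.map Ψ Ψ) id) := by
    rw [Measure.map_prod_map β β hΨ hΨ]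
    have h1 := Measure.map_prod_map (β.prod β) (ν.prod ν) (hΨ.prodMap hΨ) measurable_id
    rw [Measure.map_id] at h1
    exact h1
  unfold expMeet
  rw [hm]
  refine (lintegral_map_le _ _).trans ?_
  have h1 : ∫⁻ x : ((ℕ → Bool) × (ℕ → Bool)) × (O3 × O3),
      (⨅ (k : ℕ) (_ : x.1.1 k ≠ x.1.2 k), ((k : ℝ≥0∞) + 1)) * ENNReal.ofReal L
        ∂((β.prod β).prod (ν.prod ν)) ≤ ENNReal.ofReal (2 * L) := by
    have hmp : MeasurePreserving (Prod.fst : ((ℕ → Bool) × (ℕ → Bool)) × (O3 × O3) → _)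
        ((β.prod β).prod (ν.prod ν)) (β.prod β) := measurePreserving_fst
    have h2 := hmp.lintegral_comp (upper_bound_meas.mul_const (ENNReal.ofReal L))
    rw [h2, lintegral_mul_const _ upper_bound_meas, ENNReal.ofReal_mul (by norm_num)]
    refine mul_le_mul_left ?_ _
    refine hβ.trans (le_of_eq ?_)
    simp
  refine le_trans (lintegral_mono fun x => ?_) h1
  exact hpt x.1.1 x.1.2 x.2.1 x.2.2

end Pool.Agent.Helper865.Astro
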