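import Pool.Agent.Helper865.Astro.A
import Pool.Agent.Helper865.Astro.B
import Pool.Agent.Helper865.Astro.C1
import Pool.Agent.Helper865.Astro.C2
import Pool.Agent.Helper865.Astro.C3
import Pool.Agent.Helper865.Astro.D
import Pool.Agent.Helper865.Astro.E
import Pool.Agent.Helper865.Astro.F
import Pool.Agent.Helper865.Astro.G1
import Pool.Agent.Helper865.Astro.G2
import Pool.Agent.Helper865.Astro.G3
import Pool.Agent.Helper865.Astro.I
import Pool.Agent.Helper865.Astro.J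
import Pool.Agent.Helper865.Astro.K1
import Pool.Agent.Helper865.Astro.K2

set_option autoImplicit false

open MeasureTheory Set Filter Topology
open scoped NNReal ENNReal

namespace Pool.Agent.Helper865.Astro

/-- the symmetric rendezvous value: infimum of the expected meeting time over all strategies,
i.e. Borel probability measures on the set of admissible paths -/
noncomputable def Rs (ρ r : ℝ) (N : E3) : ℝ≥0∞ :=
  ⨅ (μ : Measure (Route ρ N)) (_ : IsProbabilityMeasure μ), expMeet haarO3 ρ r N μ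

lemma Rs_lower {ρ r : ℝ} (hρ : 0 < ρ) (hr : 0 < r) (hr2 : 2 * r / ρ < Real.pi / 2) (N : E3) :
    ENNReal.ofReal (2 * r / Real.tan (2 * r / ρ) ^ 2 - 2 * r) ≤ Rs ρ r N := by
  refine le_iInf fun μ => le_iInf fun hμ => ?_
  refine lower_bound continuous_act angle_act norm_act haarO3 ?_ ?_ ?_ ?_ hρ hr hr2 N μ
  · intro x z α hx hz h0 h1
    refine cap_meas act_mul act_one angle_act norm_act continuous_act exists_act mp_act ?_ haarO3 hx hz h0 h1
    intro x α hx h0 h1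
    exact sector_vol angle_act norm_act exists_act mp_act cone_vol hx h0 h1
  · intro Ω _ P _ T C hC p h hp hh hP hT
    exact lower_abs P T C hC hp hh hP hT
  · intro ρ N s t
    exact close_sets continuous_act s t
  · intro ρ r hρ hr N γ₁ γ₂ g₁ g₂ n h
    exact meet_ge angle_act hρ hr γ₁ γ₂ g₁ g₂ n h

lemma strategy_exists {ρ r : ℝ} (hρ : 0 < ρ) (hr : 0 < r) {N : E3} (hN : ‖N‖ = ρ) :
    ∃ μ : Measure (Route ρ N), IsProbabilityMeasure μ ∧
      expMeet haarO3 ρ r N μ ≤ ENNReal.ofReal (4 * Real.pi * ρ ^ 2 / r + 2 * Real.pi * ρ) := by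
  obtain ⟨σ, s0, sn, sl, sc⟩ := tour_pole (fun {ρ} hρ {a b} σ h1 h2 => chord_to_gd hρ σ h1 h2)
    (fun {ρ} hρ k θ => norm_spir hρ k θ) (fun {ρ k} hρ hk => spir_chord hρ hk)
    (fun {ρ k} hρ hk y hy => spir_cover hρ hk y hy) hρ hr
  obtain ⟨g, hg⟩ := exists_act (!₂[0, 0, ρ] : E3) N (by
    rw [hN, ← s0, sn])
  have hL : 0 < 2 * Real.pi * ρ ^ 2 / r + Real.pi * ρ := by positivity
  obtain ⟨f, f0, fl, _, fc, ft, ff⟩ := schedule hL
  have hact : ∀ x y : E3, gd ρ (act g x) (act g y) = gd ρ x y := by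
    intro x y
    rw [gd, gd, angle_act]
  have hτ0 : act g (σ 0) = N := by rw [s0, hg]
  have hτn : ∀ v, ‖act g (σ v)‖ = ρ := fun v => by rw [norm_act, sn]
  have hτl : ∀ v w, gd ρ (act g (σ v)) (act g (σ w)) ≤ |v - w| := fun v w => by
    rw [hact]; exact sl v w
  have hτc : ∀ y : E3, ‖y‖ = ρ → ∃ v ∈ Icc 0 (2 * Real.pi * ρ ^ 2 / r + Real.pi * ρ),
      gd ρ (act g (σ v)) y ≤ r := by
    intro y hy
    obtain ⟨v, hv, hv2⟩ := sc (act g⁻¹ y) (by rw [norm_act, hy])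
    refine ⟨v, hv, ?_⟩
    have h1 : y = act g (act g⁻¹ y) := by rw [← act_mul, mul_inv_cancel, act_one]
    rw [h1, hact]
    exact hv2
  obtain ⟨Ψ, hΨ, hΨ2⟩ := route_map (fun v => act g (σ v)) hτ0 hτn hρ hτl f f0 fl fc
  obtain ⟨β, hβ, hβ2⟩ := coins
  refine ⟨β.map Ψ, Measure.isProbabilityMeasure_map hΨ.aemeasurable, ?_⟩
  refine le_trans (upper_bound act_mul act_one angle_act norm_act gd_comm haarO3 hρ hr hL
    (fun v => act g (σ v)) hτn hτc f ft ff Ψ hΨ hΨ2 β hβ2) ?_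
  apply ENNReal.ofReal_le_ofReal
  apply le_of_eq
  ring

lemma Rs_upper {ρ r : ℝ} (hρ : 0 < ρ) (hr : 0 < r) {N : E3} (hN : ‖N‖ = ρ) :
    Rs ρ r N ≤ ENNReal.ofReal (4 * Real.pi * ρ ^ 2 / r + 2 * Real.pi * ρ) := by
  obtain ⟨μ, hμ, h⟩ := strategy_exists hρ hr hN
  exact le_trans (iInf_le_of_le μ (iInf_le_of_le hμ le_rfl)) h

lemma tan_bound {x : ℝ} (h0 : 0 < x) (h1 : x ≤ 1 / 2) :
    (1 - x ^ 2) / x ^ 2 ≤ 1 / Real.tan x ^ 2 := by
  have hs : Real.sin x ≤ x := Real.sin_le h0.le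
  have hs0 : 0 < Real.sin x := Real.sin_pos_of_pos_of_lt_pi h0 (by linarith [Real.pi_gt_three])
  have hc : 1 - x ^ 2 / 2 ≤ Real.cos x := Real.one_sub_sq_div_two_le_cos
  have hc0 : 0 < 1 - x ^ 2 / 2 := by nlinarith
  rw [Real.tan_eq_sin_div_cos, div_pow, one_div_div]
  have h2 : 1 - x ^ 2 ≤ Real.cos x ^ 2 := by nlinarith [sq_nonneg (x ^ 2)]
  have h3 : Real.sin x ^ 2 ≤ x ^ 2 := by nlinarith
  have h4 : 0 ≤ 1 - x ^ 2 := by nlinarith
  calc (1 - x ^ 2) / x ^ 2 ≤ (1 - x ^ 2) / Real.sin x ^ 2 :=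
        div_le_div_of_nonneg_left h4 (by positivity) h3
    _ ≤ Real.cos x ^ 2 / Real.sin x ^ 2 := div_le_div_of_nonneg_right h2 (by positivity)

lemma lower_simple {ρ r : ℝ} (hρ : 0 < ρ) (hr : 0 < r) (h : r ≤ ρ / 4) (N : E3) :
    ENNReal.ofReal ((1 / 2 - 4 * (r / ρ) ^ 2) * (ρ ^ 2 / r)) ≤ Rs ρ r N := by
  have hx0 : 0 < 2 * r / ρ := by positivity
  have hx1 : 2 * r / ρ ≤ 1 / 2 := by
    rw [div_le_iff₀ hρ]; linarith
  refine le_trans (ENNReal.ofReal_le_ofReal ?_) (Rs_lower hρ hr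
    (by linarith [Real.pi_gt_three]) N)
  have h1 := tan_bound hx0 hx1
  have h2 : 2 * r / Real.tan (2 * r / ρ) ^ 2 = 2 * r * (1 / Real.tan (2 * r / ρ) ^ 2) := by ring
  rw [h2]
  have h3 : 2 * r * ((1 - (2 * r / ρ) ^ 2) / (2 * r / ρ) ^ 2) ≤
      2 * r * (1 / Real.tan (2 * r / ρ) ^ 2) := mul_le_mul_of_nonneg_left h1 (by positivity)
  refine le_trans ?_ (sub_le_sub_right h3 _)
  apply le_of_eq
  field_simp
  ring

/-- **Order of magnitude of the astronaut rendezvous value.** -/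
theorem order :
    (∀ (ρ r : ℝ) (N : E3), 0 < r → r ≤ ρ / 4 → ‖N‖ = ρ →
      ENNReal.ofReal (ρ ^ 2 / (4 * r)) ≤ Rs ρ r N ∧ Rs ρ r N ≤ ENNReal.ofReal (15 * (ρ ^ 2 / r))) ∧
    (∀ ε : ℝ, 0 < ε → ∃ δ : ℝ, 0 < δ ∧ ∀ (ρ r : ℝ) (N : E3), 0 < r → r ≤ δ * ρ → ‖N‖ = ρ →
      ENNReal.ofReal ((1 / 2 - ε) * (ρ ^ 2 / r)) ≤ Rs ρ r N ∧
      Rs ρ r N ≤ ENNReal.ofReal ((4 * Real.pi + ε) * (ρ ^ 2 / r))) ∧
    (∀ (ρ r : ℝ) (N : E3), 0 < r → r < Real.pi * ρ → ‖N‖ = ρ →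
      ∃ μ : Measure (Route ρ N), IsProbabilityMeasure μ ∧
        expMeet haarO3 ρ r N μ ≤ ENNReal.ofReal (4 * Real.pi * ρ ^ 2 / r + 2 * Real.pi * ρ)) := by
  refine ⟨?_, ?_, ?_⟩
  · intro ρ r N hr h hN
    have hρ : 0 < ρ := by linarith
    refine ⟨le_trans (ENNReal.ofReal_le_ofReal ?_) (lower_simple hρ hr h N),
      le_trans (Rs_upper hρ hr hN) (ENNReal.ofReal_le_ofReal ?_)⟩
    · have h1 : (r / ρ) ^ 2 ≤ (1 / 4) ^ 2 := by
        apply pow_le_pow_left₀ (by positivity)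
        rw [div_le_iff₀ hρ]; linarith
      have h2 : ρ ^ 2 / (4 * r) = (1 / 4) * (ρ ^ 2 / r) := by field_simp
      rw [h2]
      apply mul_le_mul_of_nonneg_right _ (by positivity)
      linarith
    · have h2 : 2 * Real.pi * ρ ≤ 2 * Real.pi * (1 / 4) * (ρ ^ 2 / r) := by
        have h3 : ρ ≤ (1 / 4) * (ρ ^ 2 / r) := by
          rw [← mul_div_assoc, le_div_iff₀ hr]
          nlinarith
        have := mul_le_mul_of_nonneg_left h3 (by positivity : (0 : ℝ) ≤ 2 * Real.pi)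
        linarith
      have h4 : 4 * Real.pi * ρ ^ 2 / r = 4 * Real.pi * (ρ ^ 2 / r) := by ring
      rw [h4]
      have h5 : Real.pi < 3.15 := Real.pi_lt_d2
      have h6 : 0 < ρ ^ 2 / r := by positivity
      nlinarith
  · intro ε hε
    refine ⟨min (1 / 4) (ε / 8), by positivity, ?_⟩
    intro ρ r N hr h hN
    have hρ : 0 < ρ := by
      by_contra hc
      push Not at hc
      have : min (1 / 4) (ε / 8) * ρ ≤ 0 := mul_nonpos_of_nonneg_of_nonpos (by positivity) hc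
      linarith
    have h1 : r ≤ ρ / 4 := by
      refine le_trans h ?_
      have := mul_le_mul_of_nonneg_right (min_le_left (1 / 4 : ℝ) (ε / 8)) hρ.le
      linarith
    have h2 : r ≤ ε / 8 * ρ := le_trans h (mul_le_mul_of_nonneg_right (min_le_right _ _) hρ.le)
    have h6 : 0 < ρ ^ 2 / r := by positivity
    have hq : r / ρ ≤ ε / 8 := by rw [div_le_iff₀ hρ]; exact h2
    have hq1 : r / ρ ≤ 1 / 4 := by rw [div_le_iff₀ hρ]; linarith
    have hq0 : 0 < r / ρ := by positivity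
    refine ⟨le_trans (ENNReal.ofReal_le_ofReal ?_) (lower_simple hρ hr h1 N),
      le_trans (Rs_upper hρ hr hN) (ENNReal.ofReal_le_ofReal ?_)⟩
    · apply mul_le_mul_of_nonneg_right _ h6.le
      nlinarith
    · have h4 : 4 * Real.pi * ρ ^ 2 / r + 2 * Real.pi * ρ =
          (4 * Real.pi + 2 * Real.pi * (r / ρ)) * (ρ ^ 2 / r) := by
        field_simp
      rw [h4]
      apply mul_le_mul_of_nonneg_right _ h6.le
      have h5 : Real.pi < 4 := Real.pi_lt_four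
      nlinarith [Real.pi_pos]
  · intro ρ r N hr hr2 hN
    have hρ : 0 < ρ := by
      by_contra hc
      push Not at hc
      have : Real.pi * ρ ≤ 0 := mul_nonpos_of_nonneg_of_nonpos Real.pi_pos.le hc
      linarith
    exact strategy_exists hρ hr hN

end Pool.Agent.Helper865.Astro
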