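import Pool.Agent.Helper865.Astro.Defs

set_option autoImplicit false

open MeasureTheory Set Filter Topology
open scoped NNReal ENNReal

namespace Pool.Agent.Helper865.Astro

lemma coins : ∃ β : Measure (ℕ → Bool), IsProbabilityMeasure β ∧
    ∫⁻ p : (ℕ → Bool) × (ℕ → Bool), (⨅ (k : ℕ) (_ : p.1 k ≠ p.2 k), ((k : ℝ≥0∞) + 1))
      ∂(β.prod β) ≤ 2 := by
  classical
  let u : Measure Bool := (PMF.uniformOfFintype Bool).toMeasure
  have hu : ∀ b : Bool, u {b} = 2⁻¹ := by
    intro b
    simp [u, PMF.toMeasure_apply_singleton]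
  let β : Measure (ℕ → Bool) := Measure.infinitePi (fun _ : ℕ => u)
  have hβ : IsProbabilityMeasure β := by infer_instance
  refine ⟨β, hβ, ?_⟩
  let E : ℕ → Set ((ℕ → Bool) × (ℕ → Bool)) := fun k => {p | ∀ j < k, p.1 j = p.2 j}
  have hE : ∀ k, MeasurableSet (E k) := by
    intro k
    have : E k = ⋂ j ∈ Finset.range k, {p : (ℕ → Bool) × (ℕ → Bool) | p.1 j = p.2 j} := by
      ext p; simp [E]
    rw [this]
    refine Finset.measurableSet_biInter _ fun j _ => ?_
    exact measurableSet_eq_fun ((measurable_pi_apply j).comp measurable_fst)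
      ((measurable_pi_apply j).comp measurable_snd)
  have hle : ∀ p : (ℕ → Bool) × (ℕ → Bool),
      (⨅ (k : ℕ) (_ : p.1 k ≠ p.2 k), ((k : ℝ≥0∞) + 1)) ≤
        ∑' k, (E k).indicator (fun _ => (1 : ℝ≥0∞)) p := by
    intro p
    by_cases h : ∃ k, p.1 k ≠ p.2 k
    · have hk := Nat.find_spec h
      have hmin : ∀ j < Nat.find h, p.1 j = p.2 j := fun j hj => by
        have := Nat.find_min h hj
        push Not at this
        exact this
      refine le_trans (iInf₂_le (Nat.find h) hk) ?_
      have h1 : ∑ k ∈ Finset.range (Nat.find h + 1), (E k).indicator (fun _ => (1 : ℝ≥0∞)) p =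
          (Nat.find h : ℝ≥0∞) + 1 := by
        rw [Finset.sum_congr rfl (g := fun _ => (1 : ℝ≥0∞))]
        · simp
        · intro k hk2
          rw [Finset.mem_range] at hk2
          apply Set.indicator_of_mem
          intro j hj
          exact hmin j (by omega)
      rw [← h1]
      exact ENNReal.sum_le_tsum _
    · push Not at h
      have h1 : ∀ k, (E k).indicator (fun _ => (1 : ℝ≥0∞)) p = 1 := by
        intro k
        apply Set.indicator_of_mem
        intro j _
        exact h j
      simp only [h1]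
      rw [ENNReal.tsum_const_eq_top_of_ne_zero one_ne_zero]
      exact le_top
  have hm : ∀ k, (β.prod β) (E k) = (2⁻¹ : ℝ≥0∞) ^ k := by
    intro k
    rw [Measure.prod_apply (hE k)]
    have h2 : ∀ x : ℕ → Bool, β (Prod.mk x ⁻¹' E k) = (2⁻¹ : ℝ≥0∞) ^ k := by
      intro x
      have h3 : Prod.mk x ⁻¹' E k = (↑(Finset.range k) : Set ℕ).pi (fun j => {x j}) := by
        ext y
        simp only [Set.mem_preimage, E, Set.mem_setOf_eq, Set.mem_pi, Finset.coe_range,
          Set.mem_Iio, Set.mem_singleton_iff]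
        constructor
        · intro h j hj; exact (h j hj).symm
        · intro h j hj; exact (h j hj).symm
      rw [h3, Measure.infinitePi_pi (fun _ : ℕ => u) (fun i _ => measurableSet_singleton _)]
      simp [hu]
    simp only [h2]
    simp
  calc ∫⁻ p : (ℕ → Bool) × (ℕ → Bool), (⨅ (k : ℕ) (_ : p.1 k ≠ p.2 k), ((k : ℝ≥0∞) + 1))
      ∂(β.prod β) ≤ ∫⁻ p, ∑' k, (E k).indicator (fun _ => (1 : ℝ≥0∞)) p ∂(β.prod β) :=
        lintegral_mono hle
    _ = ∑' k, ∫⁻ p, (E k).indicator (fun _ => (1 : ℝ≥0∞)) p ∂(β.prod β) := by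
        rw [lintegral_tsum]
        intro k
        exact (measurable_const.indicator (hE k)).aemeasurable
    _ = ∑' k, (2⁻¹ : ℝ≥0∞) ^ k := by
        congr 1
        ext k
        rw [lintegral_indicator (hE k)]
        simp [hm]
    _ = 2 := by
        rw [ENNReal.tsum_geometric]
        simp
    _ ≤ 2 := le_rfl

end Pool.Agent.Helper865.Astro
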